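import Pool.Agent.R887.DefsTens
import Pool.Agent.N110.NV.Defs

/-!
Definitions: smooth projective varieties given by the homogeneous coordinates of the generic point, and
pseudo-effective rank one subsheaves of the tensor powers of the cotangent sheaf.
-/

set_option autoImplicit false

open FF Pool.Agent.W602.GT Pool.Agent.Y172 Pool.Agent.R887

namespace Pool.Agent.H59D

section

variable {K : Type} [Field K] [Algebra ℂ K] {N : ℕ}

/-- The variety `X` with generic point `y`, of dimension `n`, is smooth: at the centre of every prime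
divisor `Q` over `X` there are local coordinates `x 1, ..., x n` in the local ring of `X`, with vector
fields `E i`, dual to them, which map the local ring into itself. -/
def SmoothModel (y : Fin (N + 1) → K) (n : ℕ) : Prop :=
  ∀ Q : Place ℂ K, Divisorial n Q → ∃ (x : Fin n → K) (E : Fin n → Derivation ℂ K K),
    IsTranscendenceBasis ℂ x ∧ (∀ i, x i ∈ localRing y Q) ∧
      (∀ i j, E i (x j) = if i = j then 1 else 0) ∧
      ∀ i, ∀ f ∈ localRing y Q, E i f ∈ localRing y Q

/-- `H⁰ (X, (Ω¹) ^ ⊗ r) = 0` for all `r ≥ 1`, for the smooth projective varieties `X` of dimension `n`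
with function field `K`: a `K`-multilinear function of `r` rational vector fields which is regular at
all prime divisors `Q` over `X`, that is, on the vector fields which are regular at `Q`, is zero. -/
def NoTensors (K : Type) [Field K] [Algebra ℂ K] (n : ℕ) : Prop :=
  ∀ r : ℕ, 1 ≤ r → ∀ T : Tensor K r, (∀ Q : Place ℂ K, Divisorial n Q →
    ∀ E : Fin r → Derivation ℂ K K, (∀ k, DerReg Q (E k)) → Q.Reg (T E)) → T = 0

/-- `L` is the saturated subsheaf of rank one of `(Ω¹) ^ ⊗ r` on the smooth projective variety `X`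
generated by the rational section `σ`. The rational function `g` is a section of `L ^ m (A)`, for a
`ℚ`-divisor `A`: on the vector fields which are regular at the prime divisor `P` of `X` the order of
`g σ ^ m` is at least `- A P`. -/
def IsTwistedTensor (y : Fin (N + 1) → K) {r : ℕ} (σ : Tensor K r) (m : ℕ) (A : Place ℂ K → ℚ)
    (g : K) : Prop :=
  ∀ P, IsPrimeDivisor y P → ∀ E : Fin r → Derivation ℂ K K, (∀ k, DerReg P (E k)) →
    g * σ E ^ m = 0 ∨ -(A P) ≤ P.ord (g * σ E ^ m)

/-- The subsheaf `L` of rank one of `(Ω¹) ^ ⊗ r` generated by `σ` is pseudo-effective: for all `q ≥ 1`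
some multiple `m (q L + H)`, `m ≥ 1`, `H` being a hyperplane section `y i = 0`, has a section
`g ≠ 0`. -/
def TensorPsef (y : Fin (N + 1) → K) {r : ℕ} (σ : Tensor K r) : Prop :=
  ∀ i, y i ≠ 0 → ∀ q : ℕ, 1 ≤ q → ∃ m : ℕ, 1 ≤ m ∧ ∃ g : K, g ≠ 0 ∧
    ∀ P l, IsPrimeDivisor y P → Centred y l P → ∀ E : Fin r → Derivation ℂ K K,
      (∀ k, DerReg P (E k)) → P.Reg (g * σ E ^ (m * q) * (y i / y l) ^ m)

/-- The numerical dimension of the subsheaf `L` of rank one of `(Ω¹) ^ ⊗ r` generated by `σ` is less
than `j`, `n` being the dimension of `X`: the positive intersection product of `j` copies of `L` and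
`n - j` hyperplane sections is zero. This means, for all effective divisors `A`: for all `ε > 0` there
is `t > 0` such that for all large `m` and all `b ≤ t m` the rational maps given by the sections
`g 0, ..., g j` of `L ^ m (b A)` together with `n - j` pencils `u` of hyperplane sections have degree
at most `ε m ^ j`. -/
def TensorNumDimLt (y : Fin (N + 1) → K) (n : ℕ) {r : ℕ} (σ : Tensor K r) (j : ℕ) : Prop :=
  ∀ A : Place ℂ K → ℚ, Effective y A → ∀ ε : ℝ, 0 < ε → ∃ t : ℝ, 0 < t ∧ ∃ m₀ : ℕ, ∀ m b : ℕ,
    m₀ ≤ m → (b : ℝ) ≤ t * m → ∀ u : Fin (n - j) → K, (∀ a, IsPencil y (u a)) →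
    ∀ g : Fin (j + 1) → K, (∀ i, IsTwistedTensor y σ m (b • A) (g i)) → g 0 ≠ 0 →
      (degreeOver u (fun i : Fin j => g i.succ / g 0) : ℝ) ≤ ε * m ^ j

end

end Pool.Agent.H59D
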