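import Pool.Agent.H59D.Num
import Pool.Agent.H59C.Geo2

/-!
The classes of the rational tensor fields on a variety whose pseudo-automorphisms fix no
pseudo-effective class.
-/

set_option autoImplicit false
set_option linter.overlappingInstances false
set_option linter.unusedSectionVars false

open FF Module Pool.Agent.W602.GT Pool.Agent.W603.LV Pool.Agent.Y172 Pool.Agent.R887
open Pool.Agent.W619.PQ
open Pool.Agent.N110 Pool.Agent.N110.PA Pool.Agent.N110.NV Pool.Agent.N492.PA
open Pool.Agent.N110.CC Pool.Agent.H59C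
open Pool.Agent.N165.KM (IntL mem_IntL finite_bdd)

namespace Pool.Agent.H59D

section

variable {K : Type} [Field K] [Algebra ℂ K] {N n r ρ : ℕ} {y : Fin (N + 1) → K}

theorem dconj_add (φ : K ≃ₐ[ℂ] K) (D D' : Derivation ℂ K K) :
    dconj φ (D + D') = dconj φ D + dconj φ D' := by
  ext g
  rw [Derivation.add_apply, dconj_apply, dconj_apply, dconj_apply, Derivation.add_apply, map_add]

theorem dconj_smul (φ : K ≃ₐ[ℂ] K) (a : K) (D : Derivation ℂ K K) :
    dconj φ (a • D) = φ.symm a • dconj φ D := by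
  ext g
  rw [Derivation.smul_apply, dconj_apply, dconj_apply, Derivation.smul_apply, smul_eq_mul,
    smul_eq_mul, map_mul]

theorem dconj_update [DecidableEq (Fin r)] (φ : K ≃ₐ[ℂ] K) (D : Fin r → Derivation ℂ K K)
    (s : Fin r) (z : Derivation ℂ K K) :
    (fun i => dconj φ (Function.update D s z i)) =
      Function.update (fun i => dconj φ (D i)) s (dconj φ z) := by
  funext i
  by_cases hi : i = s
  · rw [hi, Function.update_self, Function.update_self]
  · rw [Function.update_of_ne hi, Function.update_of_ne hi]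

/-- the pull back of a tensor field by a birational self-map -/
noncomputable def tmap (φ : K ≃ₐ[ℂ] K) (σ : Tensor K r) : Tensor K r where
  toFun D := φ (σ fun i => dconj φ (D i))
  map_update_add' := by
    intro i1 D s a b
    rw [dconj_update, dconj_update, dconj_update, dconj_add, MultilinearMap.map_update_add,
      map_add]
  map_update_smul' := by
    intro i1 D s a b
    rw [dconj_update, dconj_update, dconj_smul, MultilinearMap.map_update_smul, smul_eq_mul,
      smul_eq_mul, map_mul, φ.apply_symm_apply]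

theorem tmap_apply (φ : K ≃ₐ[ℂ] K) (σ : Tensor K r) (D : Fin r → Derivation ℂ K K) :
    tmap φ σ D = φ (σ fun i => dconj φ (D i)) := rfl

theorem dconj_dconj (φ : K ≃ₐ[ℂ] K) (D : Derivation ℂ K K) : dconj φ (dconj φ.symm D) = D := by
  ext g
  show φ.symm (φ (D (φ.symm (φ g)))) = D g
  rw [φ.symm_apply_apply, φ.symm_apply_apply]

theorem tmap_ne {φ : K ≃ₐ[ℂ] K} {σ : Tensor K r} (hσ : σ ≠ 0) : tmap φ σ ≠ 0 := by
  intro h
  apply hσ
  ext D
  have h1 : tmap φ σ (fun i => dconj φ.symm (D i)) = 0 := by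
    rw [h]
    rfl
  rw [tmap_apply] at h1
  simp only [dconj_dconj] at h1
  exact (map_eq_zero φ).1 h1

/-- the order of the pull back of a tensor field -/
theorem tmap_ord {φ : K ≃ₐ[ℂ] K} {σ : Tensor K r} {Q : Place ℂ K} {d : ℤ}
    (h : TOrd (comap φ Q) σ d) : TOrd Q (tmap φ σ) d := by
  constructor
  · intro D hD
    have h1 := h.1 (fun i => dconj φ (D i)) (fun i f hf => by
      rw [comap_reg, dconj_apply, φ.apply_symm_apply]
      exact hD i _ (comap_reg.1 hf))
    rcases h1 with h1 | h1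
    · left
      rw [tmap_apply, h1, map_zero]
    · right
      rw [tmap_apply]
      exact h1
  · obtain ⟨E, hE, h1, h2⟩ := h.2
    have e1 : (fun i => dconj φ (dconj φ.symm (E i))) = E := by
      funext i
      exact dconj_dconj φ _
    refine ⟨fun i => dconj φ.symm (E i), fun i f hf => ?_, ?_, ?_⟩
    · rw [dconj_apply]
      have h3 : (comap φ Q).Reg (φ.symm f) := comap_reg.2 (by rwa [φ.apply_symm_apply])
      have h4 := hE i _ h3
      rw [comap_reg] at h4
      exact h4
    · rw [tmap_apply, e1, Ne, map_eq_zero]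
      exact h1
    · rw [tmap_apply, e1]
      exact h2

/-- the class of a divisor is integral -/
theorem divClass_int (c : Place ℂ K → Fin ρ → ℤ) (d : Place ℂ K → ℤ) :
    divClass y c d ∈ IntL ρ := by
  unfold divClass
  refine finsum_mem_induction (fun v => v ∈ IntL ρ) (IntL ρ).zero_mem
    (fun _ _ h1 h2 => (IntL ρ).add_mem h1 h2) fun P _ => ?_
  intro i
  refine ⟨d P * c P i, ?_⟩
  rw [Pi.smul_apply, smul_eq_mul]
  unfold rcl
  push_cast
  ring

theorem int_rat {x : Fin ρ → ℝ} (hx : x ∈ IntL ρ) : ∃ q : Fin ρ → ℚ, toR q = x := by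
  choose m hm using mem_IntL.1 hx
  refine ⟨fun i => m i, ?_⟩
  funext i
  rw [hm i]
  show (((m i : ℤ) : ℚ) : ℝ) = _
  push_cast
  rfl

/-- **The classes of tensor fields.** If the pull backs in `𝒯` fix no pseudo-effective class but zero
then the class of a tensor field is zero if it is pseudo-effective. -/
theorem psef_zero (hy : NormalModel y) (hn : Algebra.trdeg ℂ K = n)
    {c : Place ℂ K → Fin ρ → ℤ} (hc : PicardBasis y c)
    {𝒯 : Set ((Fin ρ → ℝ) ≃ₗ[ℝ] (Fin ρ → ℝ))}
    (h𝒯 : ∀ T ∈ 𝒯, ∃ ψ, PseudoAut ψ y ∧ IsPullBack y c ψ T)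
    (hfix : ∀ q : Fin ρ → ℚ, toR q ∈ CE y c → (∀ T ∈ 𝒯, T (toR q) = toR q) → q = 0)
    {σ : Tensor K r} (hσ : σ ≠ 0) {d : Place ℂ K → ℤ}
    (hdf : {P | IsPrimeDivisor y P ∧ d P ≠ 0}.Finite)
    (hd : ∀ P, IsPrimeDivisor y P → TOrd P σ (d P)) (hps : divClass y c d ∈ CE y c) :
    divClass y c d = 0 := by
  classical
  have hpc := pc_eff hc.numClasses
  obtain ⟨C, hC0, hCf, hCd⟩ := exists_tdiv hy hn
  obtain ⟨𝒟, h𝒟⟩ : ∃ 𝒟 : Set (Fin ρ → ℝ), 𝒟 = {v | ∃ (σ : Tensor K r) (d : Place ℂ K → ℤ),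
      σ ≠ 0 ∧ {P | IsPrimeDivisor y P ∧ d P ≠ 0}.Finite ∧
      (∀ P, IsPrimeDivisor y P → TOrd P σ (d P)) ∧ v = divClass y c d ∧ v ∈ CE y c} := ⟨_, rfl⟩
  -- the set is finite
  obtain ⟨M, hM, hnorm⟩ := Pool.Agent.H73.MR.normal hpc
  have hfin : 𝒟.Finite := by
    refine (finite_bdd (ρ := ρ) (M * ‖(r : ℝ) • divClass y c C‖)).subset ?_
    intro v hv
    rw [h𝒟] at hv
    obtain ⟨τ, e, hτ, hef, he, rfl, hv⟩ := hv
    refine ⟨divClass_int c e, hnorm _ _ hv ?_⟩
    obtain ⟨d', -, hd', f, hf0, hf⟩ := hCd hτ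
    have h1 : ∀ P, IsPrimeDivisor y P → e P ≤ P.ord f + r * C P := by
      intro P hP
      rw [(he P hP).unique (hd' P hP)]
      exact hf P hP
    have hef' : Fin0 y (fun P => (e P : ℚ)) := fin_cast hef
    have hCf' : Fin0 y (fun P => (C P : ℚ)) := fin_cast hCf
    have hff : Fin0 y (fun P => (P.ord f : ℚ)) := fin_cast (finite_ord hy hf0)
    have h2 : Effective y (fun P => ((P.ord f : ℚ) + (r : ℚ) * C P) - e P) := by
      refine ⟨fun P hP => ?_, ?_⟩
      · have := h1 P hP
        have h3 : (e P : ℚ) ≤ ((P.ord f + r * C P : ℤ) : ℚ) := by exact_mod_cast this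
        push_cast at h3
        linarith
      · have h4 := Fin0.add (Fin0.add hff (hCf'.smul (r : ℚ))) (fin_neg hef')
        refine h4.subset ?_
        rintro P ⟨hP, h0⟩
        refine ⟨hP, fun h5 => h0 ?_⟩
        linear_combination h5
    have h3 := subset_closure (eff_mem (c := cQ c) h2)
    have hpr : cls y (cQ c) (fun P => (P.ord f : ℚ)) = 0 := hc.numClasses.principal f hf0
    rw [cls_sub (Fin0.add hff (hCf'.smul (r : ℚ))) hef', cls_add hff (hCf'.smul (r : ℚ)), cls_smul,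
      hpr, zero_add, toR_sub, toR_smul] at h3
    rw [Pool.Agent.N681.CC.divClass_eq c hef, Pool.Agent.N681.CC.divClass_eq c hCf]
    rw [Rat.cast_natCast] at h3
    exact h3
  -- the set is preserved
  have hpres : ∀ T ∈ 𝒯, ∀ v ∈ 𝒟, T v ∈ 𝒟 := by
    intro T hT v hv
    rw [h𝒟] at hv ⊢
    obtain ⟨τ, e, hτ, hef, he, rfl, hv⟩ := hv
    obtain ⟨φ, hφ, hφT⟩ := h𝒯 T hT
    have hmov := (Pool.Agent.N608.CC.leafMOV K N ρ y hy c φ hφ T hφT e hef).1
    refine ⟨tmap φ τ, fun P => e (comap φ P), tmap_ne hτ, ?_, fun P hP => ?_, hmov.symm,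
      (pull_pres hy hc hφ hφT).1 _ hv⟩
    · have hinj : Function.Injective (comap φ : Place ℂ K → Place ℂ K) := by
        intro P Q h
        rw [← comap_inv_comap φ P, h, comap_inv_comap]
      refine (hef.preimage (f := comap φ) hinj.injOn).subset ?_
      rintro P ⟨hP, h0⟩
      exact ⟨(psaut_iff.1 hφ P).2 hP, h0⟩
    · exact tmap_ord (he _ ((psaut_iff.1 hφ P).2 hP))
  -- the sum is invariant
  obtain ⟨θ, hθ⟩ : ∃ θ, θ = ∑ v ∈ hfin.toFinset, v := ⟨_, rfl⟩
  have hCE : ∀ v ∈ 𝒟, v ∈ CE y c := by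
    intro v hv
    rw [h𝒟] at hv
    obtain ⟨τ, e, -, -, -, -, hv⟩ := hv
    exact hv
  have hIL : ∀ v ∈ 𝒟, v ∈ IntL ρ := by
    intro v hv
    rw [h𝒟] at hv
    obtain ⟨τ, e, -, -, -, rfl, -⟩ := hv
    exact divClass_int c e
  have h0CE : (0 : Fin ρ → ℝ) ∈ CE y c := by
    have := hpc.smul 0 le_rfl _ hps
    rwa [zero_smul] at this
  have hsumCE : ∀ s : Finset (Fin ρ → ℝ), (∀ v ∈ s, v ∈ 𝒟) → ∑ v ∈ s, v ∈ CE y c := by
    intro s hs
    induction s using Finset.induction_on with
    | empty => rwa [Finset.sum_empty]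
    | insert a s ha ih =>
      rw [Finset.sum_insert ha]
      exact hpc.add _ (hCE a (hs a (Finset.mem_insert_self a s))) _
        (ih fun v hv => hs v (Finset.mem_insert_of_mem hv))
  have hθCE : θ ∈ CE y c := by
    rw [hθ]
    exact hsumCE _ fun v hv => hfin.mem_toFinset.1 hv
  have hθI : θ ∈ IntL ρ := by
    rw [hθ]
    exact (IntL ρ).sum_mem fun v hv => hIL v (hfin.mem_toFinset.1 hv)
  have hθT : ∀ T ∈ 𝒯, T θ = θ := by
    intro T hT
    have himg : hfin.toFinset.image T = hfin.toFinset := by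
      refine Finset.eq_of_subset_of_card_le ?_ ?_
      · intro v hv
        obtain ⟨w, hw, rfl⟩ := Finset.mem_image.1 hv
        exact hfin.mem_toFinset.2 (hpres T hT w (hfin.mem_toFinset.1 hw))
      · rw [Finset.card_image_of_injective _ T.injective]
    rw [hθ, map_sum]
    conv_rhs => rw [← himg]
    rw [Finset.sum_image fun a _ b _ h => T.injective h]
  obtain ⟨q, hq⟩ := int_rat hθI
  have hq0 : q = 0 := hfix q (by rwa [hq]) fun T hT => by rw [hq]; exact hθT T hT
  have hθ0 : θ = 0 := by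
    rw [← hq, hq0]
    funext i
    simp [toR]
  have hmem : divClass y c d ∈ hfin.toFinset := by
    rw [hfin.mem_toFinset, h𝒟]
    exact ⟨σ, d, hσ, hdf, hd, rfl, hps⟩
  refine hpc.pointed _ hps ?_
  have h1 := Finset.add_sum_erase hfin.toFinset (fun v => v) hmem
  rw [← hθ, hθ0] at h1
  have h2 : -divClass y c d = ∑ v ∈ hfin.toFinset.erase (divClass y c d), v :=
    (eq_neg_of_add_eq_zero_right h1).symm
  rw [h2]
  exact hsumCE _ fun v hv => hfin.mem_toFinset.1 (Finset.mem_of_mem_erase hv)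

end

end Pool.Agent.H59D
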