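import Pool.Agent.H59D.InvA

/-!
Pull backs of tensor fields to finite extensions as tensor fields; the numerical dimension bounds the
Kodaira dimension; varieties dominated by a variety whose pseudo-automorphisms fix no pseudo-effective
class.
-/

set_option autoImplicit false
set_option linter.overlappingInstances false
set_option linter.unusedSectionVars false

open FF Module MvPolynomial Pool.Agent.W602.GT Pool.Agent.W603.LV Pool.Agent.Y172 Pool.Agent.Y191
open Pool.Agent.R887 Pool.Agent.W619.PQ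
open Pool.Agent.N110 Pool.Agent.N110.PA Pool.Agent.N110.NV Pool.Agent.N492.PA
open Pool.Agent.N110.CC Pool.Agent.H59C

namespace Pool.Agent.H59D

section pullback

variable {K : Type} (L : Type) [Field K] [Field L] [Algebra ℂ K] [Algebra ℂ L] [Algebra K L]
  [IsScalarTower ℂ K L] {n r : ℕ}

theorem prod_upd [DecidableEq (Fin r)] {L : Type} [Field L] [Algebra ℂ L]
    (D : Fin r → Derivation ℂ L L) (s : Fin r) (z : Derivation ℂ L L) (f : Fin r → L) :
    (∏ k, (Function.update D s z) k (f k)) = z (f s) * ∏ k ∈ Finset.univ.erase s, D k (f k) := by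
  rw [← Finset.mul_prod_erase Finset.univ _ (Finset.mem_univ s), Function.update_self]
  congr 1
  refine Finset.prod_congr rfl fun k hk => ?_
  rw [Function.update_of_ne (Finset.ne_of_mem_erase hk)]

/-- the pull back of a tensor field to an extension of the field, by means of coordinates -/
noncomputable def TP (x : Fin n → K) (E : Fin n → Derivation ℂ K K) (σ : Tensor K r) :
    Tensor L r where
  toFun D := tpull L x E σ D
  map_update_add' := by
    intro i1 D s a b
    unfold tpull
    rw [← Finset.sum_add_distrib]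
    refine Finset.sum_congr rfl fun I _ => ?_
    rw [prod_upd, prod_upd, prod_upd, Derivation.add_apply]
    ring
  map_update_smul' := by
    intro i1 D s a b
    unfold tpull
    rw [smul_eq_mul, Finset.mul_sum]
    refine Finset.sum_congr rfl fun I _ => ?_
    rw [prod_upd, prod_upd, Derivation.smul_apply, smul_eq_mul]
    ring

theorem TP_apply (x : Fin n → K) (E : Fin n → Derivation ℂ K K) (σ : Tensor K r)
    (D : Fin r → Derivation ℂ L L) : TP L x E σ D = tpull L x E σ D := rfl

variable {L}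

theorem TP_ne [FiniteDimensional K L] (hn : Algebra.trdeg ℂ K = n) {x : Fin n → K}
    {E : Fin n → Derivation ℂ K K} (hx : IsTranscendenceBasis ℂ x)
    (hE : ∀ i j, E i (x j) = if i = j then 1 else 0) {σ : Tensor K r} (hσ : σ ≠ 0) :
    TP L x E σ ≠ 0 := by
  intro h
  obtain ⟨I, hI⟩ := exists_val hx hE hσ
  choose E' hE' using fun i => exists_lift (L := L) hn (E i)
  have h1 : TP L x E σ (fun k => E' (I k)) = 0 := by
    rw [h]
    rfl
  rw [TP_apply] at h1
  have h3 : tpull L x E σ (fun k => E' (I k)) = algebraMap K L (σ fun k => E (I k)) := by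
    rw [tensor_coord hx hE σ fun k => E (I k), map_sum]
    unfold tpull
    refine Finset.sum_congr rfl fun J _ => ?_
    rw [map_mul, map_prod]
    congr 1
    exact Finset.prod_congr rfl fun k _ => hE' (I k) (x (J k))
  rw [h3, map_eq_zero] at h1
  exact hI h1

/-- sections are pulled back to sections -/
theorem TP_section [FiniteDimensional K L] (hess : Algebra.EssFiniteType ℂ K)
    (hn : Algebra.trdeg ℂ K = n) {x : Fin n → K} {E : Fin n → Derivation ℂ K K}
    (hx : IsTranscendenceBasis ℂ x) (hE : ∀ i j, E i (x j) = if i = j then 1 else 0)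
    {σ : Tensor K r} {m : ℕ} (hm : 1 ≤ m) {g : K} (hg : IsTensorSection n ∅ σ m g) :
    IsTensorSection n ∅ (TP L x E σ) m (algebraMap K L g) := by
  refine ⟨fun Q hQ D hD => ?_, fun Q hQ _ D hD => ?_⟩
  · rw [TP_apply]
    exact (treg_section hess hn hx hE hm hg hQ (D := D)).1 hD
  · rw [TP_apply]
    exact (treg_section hess hn hx hE hm hg hQ (D := D)).2 (Set.notMem_empty _) hD

/-- the Kodaira dimension of pull backs -/
theorem TP_kodaira [FiniteDimensional K L] (hess : Algebra.EssFiniteType ℂ K)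
    (hn : Algebra.trdeg ℂ K = n) {x : Fin n → K} {E : Fin n → Derivation ℂ K K}
    (hx : IsTranscendenceBasis ℂ x) (hE : ∀ i j, E i (x j) = if i = j then 1 else 0)
    {σ : Tensor K r} {l : ℕ} (h : TensorKodairaGe n ∅ σ l) :
    TensorKodairaGe n ∅ (TP L x E σ) l := by
  obtain ⟨m, hm, g, hg, h0, hind⟩ := h
  refine ⟨m, hm, fun i => algebraMap K L (g i), fun i => TP_section hess hn hx hE hm (hg i), ?_, ?_⟩
  · rwa [Ne, map_eq_zero]
  · have h1 := hind.map' (f := IsScalarTower.toAlgHom ℂ K L) (algebraMap K L).injective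
    convert h1 using 1
    funext i
    show algebraMap K L (g i.succ) / algebraMap K L (g 0) = algebraMap K L (g i.succ / g 0)
    rw [map_div₀]

end pullback

section

variable {K : Type} [Field K] [Algebra ℂ K] {N n r : ℕ} {y : Fin (N + 1) → K}

/-- the numerical dimension bounds the Kodaira dimension -/
theorem not_kodaira_of_num (hy : NormalModel y) (hn : Algebra.trdeg ℂ K = n) {σ : Tensor K r}
    {j : ℕ} (hj : j ≤ n) (h : TensorNumDimLt y n σ j) : ¬ TensorKodairaGe n ∅ σ j := by
  classical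
  rintro ⟨m, hm, g, hg, hg0, hind⟩
  obtain ⟨u, hu, hd⟩ := exists_complete hy hn hj hind
  obtain ⟨w, hw⟩ : ∃ w : Fin j → K, w = fun i => g i.succ / g 0 := ⟨_, rfl⟩
  rw [← hw] at hd
  have hm0 : (0 : ℝ) < m := by exact_mod_cast hm
  obtain ⟨t, ht, m₀, h1⟩ := h (fun _ => 0) ⟨fun _ _ => le_rfl, Set.finite_empty.subset (by
    rintro P ⟨-, h0⟩
    exact h0 rfl)⟩ (1 / (2 * (m : ℝ) ^ j)) (by positivity)
  have hcard : Nat.card (Fin (n - j) ⊕ Fin j) = n := by
    rw [Nat.card_eq_fintype_card, Fintype.card_sum, Fintype.card_fin, Fintype.card_fin]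
    omega
  obtain ⟨q, hq⟩ : ∃ q : ℕ, q = m₀ := ⟨_, rfl⟩
  have h2 := h1 (m * (q + 1)) 0 (by rw [hq]; nlinarith) (by
    push_cast
    positivity) u hu (fun i => g i ^ (q + 1)) (fun i P hP E hE => by
      have h3 := ((hg i).pow (q + 1)).2 P (hP.divisorial hy hn) (Set.notMem_empty P) E hE
      rcases h3 with h3 | h3
      · exact Or.inl h3
      · right
        rw [zero_smul, Pi.zero_apply, neg_zero]
        exact_mod_cast h3) (pow_ne_zero _ hg0)
  have h3 := dg_pow_all (k := ℂ) (by rw [hn, hcard]) (Sum.elim u w) (Finset.univ.image Sum.inr)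
    (q := q + 1) (by omega) (by omega)
  rw [Finset.card_image_of_injective _ Sum.inr_injective, Finset.card_univ,
    Fintype.card_fin] at h3
  have h4' : (Sum.elim u fun i : Fin j => g i.succ ^ (q + 1) / g 0 ^ (q + 1)) =
      fun i => if i ∈ Finset.univ.image Sum.inr then Sum.elim u w i ^ (q + 1)
        else Sum.elim u w i := by
    funext i
    rcases i with i | i
    · simp
    · simp [hw, div_pow]
  have h4 : degreeOver u (fun i : Fin j => g i.succ ^ (q + 1) / g 0 ^ (q + 1)) =
      dg ℂ (fun i => if i ∈ Finset.univ.image Sum.inr then Sum.elim u w i ^ (q + 1)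
        else Sum.elim u w i) := by
    rw [← h4']
    unfold degreeOver dg
    rw [Set.Sum.elim_range]
  change ((degreeOver u (fun i : Fin j => g i.succ ^ (q + 1) / g 0 ^ (q + 1)) : ℕ) : ℝ) ≤ _ at h2
  rw [h4, h3] at h2
  push_cast at h2
  have hq0 : (0 : ℝ) < ((q : ℝ) + 1) ^ j := by positivity
  have h5 : 1 / (2 * (m : ℝ) ^ j) * (m * ((q : ℝ) + 1)) ^ j = ((q : ℝ) + 1) ^ j * (1 / 2) := by
    rw [mul_pow]
    field_simp
  rw [h5] at h2
  have h6 := le_of_mul_le_mul_left h2 hq0
  have h7 : (1 : ℝ) ≤ dg ℂ (Sum.elim u w) := by exact_mod_cast hd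
  linarith

end

section

variable {K : Type} [Field K] [Algebra ℂ K] {N n r ρ : ℕ} {y : Fin (N + 1) → K}

/-- the numerical dimension of the tensor fields on a variety without invariant classes -/
theorem tnum_zero (hy : NormalModel y) (hn : Algebra.trdeg ℂ K = n) (hn0 : 0 < n)
    {c : Place ℂ K → Fin ρ → ℤ} (hc : PicardBasis y c)
    {𝒯 : Set ((Fin ρ → ℝ) ≃ₗ[ℝ] (Fin ρ → ℝ))}
    (h𝒯 : ∀ T ∈ 𝒯, ∃ ψ, PseudoAut ψ y ∧ IsPullBack y c ψ T)
    (hfix : NoInvariantClass y c 𝒯) {σ : Tensor K r} (hσ : σ ≠ 0) : TensorNumDimLt y n σ 1 := by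
  obtain ⟨C, -, -, h1⟩ := exists_tdiv hy hn
  obtain ⟨d, hdf, hd, -⟩ := h1 hσ
  obtain ⟨x, E, k, hk⟩ := exists_can hy hn
  have hΔ : Fin0 y (fun P => (d P : ℚ) - k P) := by
    have h2 : Fin0 y (fun P => (d P : ℚ) + (-1) * (k P : ℚ)) :=
      Fin0.add (fin_cast hdf) ((fin_cast hk.fin).smul _)
    refine h2.subset ?_
    rintro P ⟨hP, h0⟩
    refine ⟨hP, fun h3 => h0 ?_⟩
    linear_combination h3
  refine (numDim_iff hk hd).2 (numDim_zero hy hn hn0 hc hk hΔ ?_)
  rw [sub_add_fun]
  by_cases h : toR (cls y (cQ c) (fun P => (d P : ℚ))) ∈ CE y c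
  · left
    have h2 := psef_zero hy hn hc h𝒯 (noInv_CE hy hc hfix) hσ hdf hd (by
      rw [Pool.Agent.N681.CC.divClass_eq c hdf]
      exact h)
    rw [Pool.Agent.N681.CC.divClass_eq c hdf] at h2
    exact toR_inj (h2.trans (by funext i; simp [toR]))
  · exact Or.inr h

end

section

variable {K K' : Type} [Field K] [Algebra ℂ K] [Field K'] [Algebra ℂ K'] {N N' n ρ : ℕ}
  {y : Fin (N + 1) → K} {y' : Fin (N' + 1) → K'}

/-- **Varieties dominated by a variety without invariant classes**: the Kodaira dimensions of the rank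
one sheaves of tensor fields are at most zero. -/
theorem special_img (hess : Algebra.EssFiniteType ℂ K) (hy' : NormalModel y')
    (hn : Algebra.trdeg ℂ K = n) (hn' : Algebra.trdeg ℂ K' = n) (hn0 : 0 < n)
    {c' : Place ℂ K' → Fin ρ → ℤ} (hc' : PicardBasis y' c')
    {𝒯 : Set ((Fin ρ → ℝ) ≃ₗ[ℝ] (Fin ρ → ℝ))}
    (h𝒯 : ∀ T ∈ 𝒯, ∃ ψ, PseudoAut ψ y' ∧ IsPullBack y' c' ψ T)
    (hfix : NoInvariantClass y' c' 𝒯) (π : K →ₐ[ℂ] K') {r : ℕ} {σ : Tensor K r} (hσ : σ ≠ 0)
    {l : ℕ} (hl : 1 ≤ l) : ¬ TensorKodairaGe n ∅ σ l := by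
  intro h
  let _ : Algebra K K' := π.toRingHom.toAlgebra
  have hst : IsScalarTower ℂ K K' := IsScalarTower.of_algebraMap_eq fun c => (π.commutes c).symm
  have hess' := hy'.ess
  have hfd : FiniteDimensional K K' := finite_map hn hn'
  obtain ⟨x, E, hx, hE⟩ := exists_crd hn (k := ℂ) (K := K)
  have h1 := TP_kodaira (L := K') hess hn hx hE (h.mono hl)
  exact not_kodaira_of_num hy' hn' (by omega)
    (tnum_zero hy' hn' hn0 hc' h𝒯 hfix (TP_ne hn hx hE hσ)) h1

end

end Pool.Agent.H59D
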