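import Pool.Agent.H59D.InvB

/-!
The numerical dimension of rank one sheaves of tensor fields on a smooth variety is bounded by the one
of their pull backs to a dominating variety.
-/

set_option autoImplicit false
set_option linter.overlappingInstances false
set_option linter.unusedSectionVars false

open FF Module MvPolynomial Pool.Agent.W602.GT Pool.Agent.W603.LV Pool.Agent.Y172 Pool.Agent.Y191
open Pool.Agent.R887 Pool.Agent.W619.PQ
open Pool.Agent.N110 Pool.Agent.N110.PA Pool.Agent.N110.NV Pool.Agent.N492.PA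
open Pool.Agent.N110.CC Pool.Agent.H59C Pool.Agent.N110.IM

namespace Pool.Agent.H59D

section

variable {K K' : Type} [Field K] [Algebra ℂ K] [Field K'] [Algebra ℂ K'] {N N' n : ℕ}
  {y : Fin (N + 1) → K} {y' : Fin (N' + 1) → K'} [Algebra K K'] [IsScalarTower ℂ K K']
  [FiniteDimensional K K']

/-- twisted sections are pulled back to twisted sections -/
theorem pull_twisted (hy : NormalModel y) (hy' : NormalModel y') (hn : Algebra.trdeg ℂ K = n)
    (hn' : Algebra.trdeg ℂ K' = n) (hsm : SmoothModel y n) {x : Fin n → K}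
    {E : Fin n → Derivation ℂ K K} (hx : IsTranscendenceBasis ℂ x)
    (hE : ∀ i j, E i (x j) = if i = j then 1 else 0) {A : Place ℂ K → ℚ} (hA : Effective y A) :
    ∃ A' : Place ℂ K' → ℚ, Effective y' A' ∧ ∀ {r : ℕ} {σ : Tensor K r} (m b : ℕ), 1 ≤ m →
      ∀ g, IsTwistedTensor y σ m (b • A) g →
        IsTwistedTensor y' (TP K' x E σ) m (b • A') (algebraMap K K' g) := by
  classical
  choose s hsc hs0 hsA using fun j => exists_bound (y := y) hA j
  have hs0' : ∀ j, algebraMap K K' (s j) ≠ 0 := fun j => by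
    rw [Ne, map_eq_zero]
    exact hs0 j
  refine ⟨fun Q => ∑ j, |(Q.ord (algebraMap K K' (s j)) : ℚ)|,
    ⟨fun Q _ => Finset.sum_nonneg fun _ _ => abs_nonneg _, ?_⟩, fun {r σ} m b hm g hg => ?_⟩
  · refine (Set.finite_iUnion fun j => finite_ord hy' (hs0' j)).subset ?_
    rintro Q ⟨hQ, h0⟩
    by_contra hcon
    simp only [Set.mem_iUnion, Set.mem_ofPred_eq, not_exists, not_and, not_not] at hcon
    apply h0
    refine Finset.sum_eq_zero fun j _ => ?_
    rw [hcon j hQ]
    simp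
  · intro Q hQ D hD
    rw [TP_apply]
    by_cases h0 : algebraMap K K' g * tpull K' x E σ D ^ m = 0
    · exact Or.inl h0
    right
    obtain ⟨j, hj⟩ := exists_centred hy (bel K Q)
    have h1 := smooth_up hy hn hsm hx hE (g := g * s j ^ b) hm (hQ.divisorial hy' hn')
      (fun P hP ht F hF => twisted_local (hs0 j) (hsA j) hg hj hP ht hF) hD
    have e1 : algebraMap K K' (g * s j ^ b) * tpull K' x E σ D ^ m =
        algebraMap K K' (s j) ^ b * (algebraMap K K' g * tpull K' x E σ D ^ m) := by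
      rw [map_mul, map_pow]
      ring
    rw [e1] at h1
    have h2 := (Q.reg_iff (mul_ne_zero (pow_ne_zero _ (hs0' j)) h0)).1 h1
    rw [Q.ord_mul (pow_ne_zero _ (hs0' j)) h0, Q.ord_pow] at h2
    have h3 : |(Q.ord (algebraMap K K' (s j)) : ℚ)| ≤ ∑ j, |(Q.ord (algebraMap K K' (s j)) : ℚ)| :=
      Finset.single_le_sum (f := fun j => |(Q.ord (algebraMap K K' (s j)) : ℚ)|)
        (fun _ _ => abs_nonneg _) (Finset.mem_univ j)
    have h4 := le_abs_self (Q.ord (algebraMap K K' (s j)) : ℚ)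
    have h5 : (0 : ℚ) ≤ b := Nat.cast_nonneg b
    have h6 := mul_le_mul_of_nonneg_left (h4.trans h3) h5
    have h7 : (0 : ℚ) ≤ ((b * Q.ord (algebraMap K K' (s j)) +
        Q.ord (algebraMap K K' g * tpull K' x E σ D ^ m) : ℤ) : ℚ) := by exact_mod_cast h2
    push_cast at h7
    have h8 : (b • (fun Q : Place ℂ K' => ∑ j, |(Q.ord (algebraMap K K' (s j)) : ℚ)|)) Q =
        b * ∑ j, |(Q.ord (algebraMap K K' (s j)) : ℚ)| := by
      rw [Pi.smul_apply, nsmul_eq_mul]
    rw [h8]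
    linarith

end

section

variable {K K' : Type} [Field K] [Algebra ℂ K] [Field K'] [Algebra ℂ K'] {N N' n : ℕ}
  {y : Fin (N + 1) → K} {y' : Fin (N' + 1) → K'}

/-- **The numerical dimension of the pull back.** -/
theorem numdim_down (hy : NormalModel y) (hy' : NormalModel y') (hn : Algebra.trdeg ℂ K = n)
    (hn' : Algebra.trdeg ℂ K' = n) (hsm : SmoothModel y n) {x : Fin n → K}
    {E : Fin n → Derivation ℂ K K} (hx : IsTranscendenceBasis ℂ x)
    (hE : ∀ i j, E i (x j) = if i = j then 1 else 0) (φ : K →ₐ[ℂ] K') {r : ℕ} {σ : Tensor K r}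
    {j : ℕ} (hj : j ≤ n)
    (h : letI : Algebra K K' := φ.toRingHom.toAlgebra
      TensorNumDimLt y' n (TP K' x E σ) j) : TensorNumDimLt y n σ j := by
  classical
  intro A hA ε hε
  obtain ⟨i, hi⟩ := hy.ne
  obtain ⟨i', hi'⟩ := hy'.ne
  have hess' := hy'.ess
  let _ : Algebra K K' := φ.toRingHom.toAlgebra
  have hst : IsScalarTower ℂ K K' := IsScalarTower.of_algebraMap_eq fun c => (φ.commutes c).symm
  have hfd : FiniteDimensional K K' := finite_map hn hn'
  have hφ : ∀ f, algebraMap K K' f = φ f := fun _ => rfl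
  obtain ⟨A', hA', hpull⟩ := pull_twisted hy hy' hn hn' hsm hx hE hA
  obtain ⟨B, hB⟩ := replace_img (y := y) hy' hn' hi' φ hi
  obtain ⟨t, ht, m₀, hm₀⟩ := h A' hA' (ε / ((B : ℝ) ^ (n - j) + 1)) (by positivity)
  refine ⟨t, ht, max m₀ 1, fun m b hm hb u hu g hg hg0 => ?_⟩
  have hm1 : 1 ≤ m := le_trans (le_max_right _ _) hm
  obtain ⟨w, hw⟩ : ∃ w : Fin j → K, w = fun a => g a.succ / g 0 := ⟨_, rfl⟩
  rw [← hw]
  have hsec : ∀ a, IsTwistedTensor y' (TP K' x E σ) m (b • A') (algebraMap K K' (g a)) :=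
    fun a => hpull m b hm1 _ (hg a)
  have hrat : (fun a : Fin j => algebraMap K K' (g a.succ) / algebraMap K K' (g 0)) =
      fun a => φ (w a) := by
    funext a
    rw [← map_div₀, hw]
    rfl
  -- the degrees
  obtain ⟨hpos, e0⟩ := mapDegree_img hn hn' hess' φ u w
  have e1 : degreeOver (fun a => φ (u a)) (fun a => φ (w a)) =
      degreeOver u w * mapDegree φ := by
    rw [degreeOver_eq, degreeOver_eq]
    exact e0
  have e2 : degreeOver (fun a => φ (u a)) (fun a => φ (w a)) =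
      dm ℂ ((toM u).map φ + toM (fun a => φ (w a))) := by
    refine deg_dm ?_ (toM_set _)
    ext x
    change x ∈ (toM u).map φ ↔ _
    rw [Multiset.mem_map, Set.mem_range]
    constructor
    · rintro ⟨a, ha, rfl⟩
      obtain ⟨j, rfl⟩ := mem_toM.1 ha
      exact ⟨j, rfl⟩
    · rintro ⟨j, rfl⟩
      exact ⟨u j, mem_toM.2 ⟨j, rfl⟩, rfl⟩
  obtain ⟨Q', hQ'1, hQ'2, hle⟩ := hB (toM u) (toM (fun a => φ (w a)))
    (by rw [Multiset.card_add, Multiset.card_map, toM_card, toM_card]; omega) (fun z hz => by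
      obtain ⟨a, rfl⟩ := mem_toM.1 hz
      exact hu a)
  rw [toM_card] at hQ'1 hle
  obtain ⟨v, hv⟩ := exists_fin Q' hQ'1
  have hvp : ∀ a, IsPencil y' (v a) := by
    intro a
    refine pencil_span hi' (hQ'2 _ ?_)
    have : v a ∈ {x | x ∈ Q'} := by
      rw [hv]
      exact ⟨a, rfl⟩
    exact this
  have e3 : degreeOver v (fun a => φ (w a)) = dm ℂ (Q' + toM (fun a => φ (w a))) :=
    deg_dm hv (toM_set _)
  have h3 := hm₀ m b (le_trans (le_max_left _ _) hm) hb v hvp (fun a => algebraMap K K' (g a)) hsec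
    (by rwa [Ne, map_eq_zero])
  rw [hrat] at h3
  have h4 : degreeOver u w ≤ B ^ (n - j) * degreeOver v (fun a => φ (w a)) := by
    rw [e3]
    refine le_trans ?_ hle
    rw [← e2, e1]
    exact Nat.le_mul_of_pos_right _ hpos
  have h5 : (degreeOver u w : ℝ) ≤ (B : ℝ) ^ (n - j) * degreeOver v (fun a => φ (w a)) := by
    exact_mod_cast h4
  refine h5.trans ?_
  have h6 : (B : ℝ) ^ (n - j) * degreeOver v (fun a => φ (w a)) ≤
      (B : ℝ) ^ (n - j) * (ε / ((B : ℝ) ^ (n - j) + 1) * m ^ j) :=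
    mul_le_mul_of_nonneg_left h3 (by positivity)
  refine h6.trans ?_
  have h7 : (B : ℝ) ^ (n - j) * (ε / ((B : ℝ) ^ (n - j) + 1) * m ^ j) =
      ((B : ℝ) ^ (n - j) / ((B : ℝ) ^ (n - j) + 1)) * (ε * m ^ j) := by ring
  rw [h7]
  have h8 : (B : ℝ) ^ (n - j) / ((B : ℝ) ^ (n - j) + 1) ≤ 1 := by
    rw [div_le_one (by positivity)]
    linarith
  have h9 : 0 ≤ ε * (m : ℝ) ^ j := by positivity
  nlinarith

/-- **Smooth varieties dominated by a variety without invariant classes.** -/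
theorem numdim_img (hy : NormalModel y) (hy' : NormalModel y') (hn : Algebra.trdeg ℂ K = n)
    (hn' : Algebra.trdeg ℂ K' = n) (hn0 : 0 < n) (hsm : SmoothModel y n) {ρ : ℕ}
    {c' : Place ℂ K' → Fin ρ → ℤ} (hc' : PicardBasis y' c')
    {𝒯 : Set ((Fin ρ → ℝ) ≃ₗ[ℝ] (Fin ρ → ℝ))}
    (h𝒯 : ∀ T ∈ 𝒯, ∃ ψ, PseudoAut ψ y' ∧ IsPullBack y' c' ψ T)
    (hfix : NoInvariantClass y' c' 𝒯) (π : K →ₐ[ℂ] K') {r : ℕ} {σ : Tensor K r} (hσ : σ ≠ 0) :
    TensorNumDimLt y n σ 1 := by
  have hess := hy.ess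
  obtain ⟨x, E, hx, hE⟩ := exists_crd hn (k := ℂ) (K := K)
  refine numdim_down hy hy' hn hn' hsm hx hE π (by omega) ?_
  let _ : Algebra K K' := π.toRingHom.toAlgebra
  have hst : IsScalarTower ℂ K K' := IsScalarTower.of_algebraMap_eq fun c => (π.commutes c).symm
  have hess' := hy'.ess
  have hfd : FiniteDimensional K K' := finite_map hn hn'
  exact tnum_zero hy' hn' hn0 hc' h𝒯 hfix (TP_ne hn hx hE hσ)

end

end Pool.Agent.H59D
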