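import Pool.Agent.H59D.InvC

/-!
Monotonicity of the numerical dimension, and tensor fields on a variety whose invariant classes have
small numerical dimension.
-/

set_option autoImplicit false
set_option linter.overlappingInstances false
set_option linter.unusedSectionVars false

open FF Module Pool.Agent.W602.GT Pool.Agent.W603.LV Pool.Agent.Y172 Pool.Agent.R887
open Pool.Agent.W619.PQ
open Pool.Agent.N110 Pool.Agent.N110.PA Pool.Agent.N110.NV Pool.Agent.N492.PA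
open Pool.Agent.N110.CC Pool.Agent.H59C
open Pool.Agent.N165.KM (IntL mem_IntL finite_bdd interior_add_mem interior_smul_mem)

namespace Pool.Agent.H59D

section

variable {K : Type} [Field K] [Algebra ℂ K] {N n r ρ : ℕ} {y : Fin (N + 1) → K}
  {c : Place ℂ K → Fin ρ → ℤ}

/-- degrees of powers -/
theorem deg_pow_div (hn : Algebra.trdeg ℂ K = n) {j : ℕ} (hj : j ≤ n) (u : Fin (n - j) → K)
    {f : K} (hf : f ≠ 0) (g : Fin (j + 1) → K) {q : ℕ} (hq : 1 ≤ q) :
    q ^ j * degreeOver u (fun i : Fin j => g i.succ / g 0) ≤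
      degreeOver u (fun i : Fin j => f * g i.succ ^ q / (f * g 0 ^ q)) := by
  classical
  have hcard : Nat.card (Fin (n - j) ⊕ Fin j) = n := by
    rw [Nat.card_eq_fintype_card, Fintype.card_sum, Fintype.card_fin, Fintype.card_fin]
    omega
  obtain ⟨w, hw⟩ : ∃ w : Fin j → K, w = fun i => g i.succ / g 0 := ⟨_, rfl⟩
  have h5 : degreeOver u (fun i : Fin j => g i.succ / g 0) = dg ℂ (Sum.elim u w) := by
    rw [← hw]
    unfold degreeOver dg
    rw [Set.Sum.elim_range]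
  by_cases h0 : dg ℂ (Sum.elim u w) = 0
  · rw [h5, h0, mul_zero]
    exact Nat.zero_le _
  have h3 := dg_pow_all (k := ℂ) (by rw [hn, hcard]) (Sum.elim u w) (Finset.univ.image Sum.inr)
    (q := q) hq h0
  rw [Finset.card_image_of_injective _ Sum.inr_injective, Finset.card_univ,
    Fintype.card_fin] at h3
  have h4' : (Sum.elim u fun i : Fin j => f * g i.succ ^ q / (f * g 0 ^ q)) =
      fun i => if i ∈ Finset.univ.image Sum.inr then Sum.elim u w i ^ q
        else Sum.elim u w i := by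
    funext i
    rcases i with i | i
    · simp
    · simp only [Sum.elim_inr, Finset.mem_image, Finset.mem_univ, true_and, Sum.inr.injEq,
        exists_eq, if_true, hw]
      rw [mul_div_mul_left _ _ hf, div_pow]
  have h4 : degreeOver u (fun i : Fin j => f * g i.succ ^ q / (f * g 0 ^ q)) =
      dg ℂ (fun i => if i ∈ Finset.univ.image Sum.inr then Sum.elim u w i ^ q
        else Sum.elim u w i) := by
    rw [← h4']
    unfold degreeOver dg
    rw [Set.Sum.elim_range]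
  rw [h4, h3, h5]

/-- **Monotonicity.** If `K_X + Δ' - (K_X + Δ)` is pseudo-effective and the numerical dimension of
`K_X + Δ'` is less than `j` then the numerical dimension of `K_X + Δ` is less than `j`. -/
theorem numDim_mono (hy : NormalModel y) (hn : Algebra.trdeg ℂ K = n) (hc : PicardBasis y c)
    {x : Fin n → K} {E : Fin n → Derivation ℂ K K} {k : Place ℂ K → ℤ} (hk : Can y x E k) {j : ℕ}
    (hj : j ≤ n) {Δ Δ' : Place ℂ K → ℚ} (hΔ : Fin0 y Δ) (hΔ' : Fin0 y Δ')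
    (h : toR (cls y (cQ c) (fun P => (k P : ℚ) + Δ' P)) -
      toR (cls y (cQ c) (fun P => (k P : ℚ) + Δ P)) ∈ CE y c)
    (h' : NumDimLt y n Δ' j) : NumDimLt y n Δ j := by
  intro A hA ε hε
  obtain ⟨i, hi⟩ := hy.ne
  obtain ⟨Hy, hHe, hH⟩ := exists_hyp hy hi
  have hpc := pc_eff hc.numClasses
  have hAf : Fin0 y A := hA.2
  have hHf : Fin0 y Hy := hHe.2
  have hA1 : Effective y (A + Hy) := ⟨fun P hP => add_nonneg (hA.1 P hP) (hHe.1 P hP),
    Fin0.add hAf hHf⟩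
  obtain ⟨t, ht, m₀, h1⟩ := h' (A + Hy) hA1 ε hε
  obtain ⟨M, hM⟩ := exists_nat_gt (1 / t)
  refine ⟨t, ht, max m₀ (M + 1), fun m b hm hb u hu ω E0 hω hω0 => ?_⟩
  have hm1 : m₀ ≤ m := le_trans (le_max_left _ _) hm
  have hm2 : M + 1 ≤ m := le_trans (le_max_right _ _) hm
  have hmpos : 1 ≤ m := by omega
  have hmR : (0 : ℝ) < m := by exact_mod_cast hmpos
  -- the big divisor
  obtain ⟨L, hL⟩ : ∃ L : Place ℂ K → ℚ,
    L = fun P => ((m : ℚ) * (k P + Δ' P) + (-(m : ℚ)) * (k P + Δ P)) + Hy P := ⟨_, rfl⟩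
  have hf1' : Fin0 y (fun P => (k P : ℚ) + Δ' P) := hk.finD hΔ'
  have hf2' : Fin0 y (fun P => (k P : ℚ) + Δ P) := hk.finD hΔ
  have hf1 : Fin0 y (fun P => (m : ℚ) * (k P + Δ' P)) := hf1'.smul _
  have hf2 : Fin0 y (fun P => (-(m : ℚ)) * (k P + Δ P)) := hf2'.smul _
  have hLf : Fin0 y L := by
    rw [hL]
    exact Fin0.add (Fin0.add hf1 hf2) hHf
  have hLi : toR (cls y (cQ c) L) ∈ interior (CE y c) := by
    have h2 : toR (cls y (cQ c) L) = toR (cls y (cQ c) Hy) + (m : ℝ) •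
        (toR (cls y (cQ c) (fun P => (k P : ℚ) + Δ' P)) -
          toR (cls y (cQ c) (fun P => (k P : ℚ) + Δ P))) := by
      rw [hL, cls_add (Fin0.add hf1 hf2) hHf, cls_add hf1 hf2, cls_smul, cls_smul]
      funext j
      simp only [toR, Pi.add_apply, Pi.smul_apply, Pi.sub_apply, smul_eq_mul]
      push_cast
      ring
    rw [h2]
    exact interior_add_mem hpc.add (hyp_intN hy hc hi hHe hH) (hpc.smul _ hmR.le _ h)
  obtain ⟨q, hq, f, hf, hfL⟩ := Pool.Agent.N619.CC.leafBIG K N ρ y hy c hc L hLf hLi i hi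
  have hqQ : (0 : ℚ) < q := by exact_mod_cast hq
  have hqR : (0 : ℝ) < q := by exact_mod_cast hq
  obtain ⟨B, hB⟩ : ∃ B, B = max 1 b := ⟨_, rfl⟩
  have hBa : 1 ≤ B := hB ▸ le_max_left _ _
  have hBb : b ≤ B := hB ▸ le_max_right _ _
  have hBt : (B : ℝ) ≤ t * m := by
    rw [hB]
    push_cast
    refine max_le ?_ hb
    have h3 : (M : ℝ) + 1 ≤ m := by exact_mod_cast hm2
    rw [div_lt_iff₀ ht] at hM
    nlinarith
  have hE0 : ω 0 E ≠ 0 := (Pool.Agent.N110.ratio_frame hk.frame (hω 0).1 (hω 0).1 hω0).1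
  have hrat : (fun i : Fin j => ω i.succ E0 / ω 0 E0) = fun i : Fin j => ω i.succ E / ω 0 E := by
    funext i
    exact (Pool.Agent.N110.ratio_frame hk.frame (hω 0).1 (hω i.succ).1 hω0).2
  -- the sections
  have hsec : ∀ s, IsSection y n (q * m) ((q * m) • Δ' + (q * B) • (A + Hy))
      (frm x (q * m) (f * ω s E ^ q)) := by
    intro s
    refine ⟨frm_pluri x _ _, fun P hP => ?_⟩
    rw [hk.ord P hP _ _ (frm_pluri x _ _), frm_self hk.self]
    by_cases h0 : ω s E = 0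
    · left
      rw [h0, zero_pow (by omega), mul_zero]
    · right
      have h2 := ((hk.ord P hP m _ (hω s).1 _).1 ((hω s).2 P hP)).resolve_left h0
      have h3 : (m • Δ + b • A : Place ℂ K → ℚ) P = m * Δ P + b * A P := by
        rw [Pi.add_apply, Pi.smul_apply, Pi.smul_apply, nsmul_eq_mul, nsmul_eq_mul]
      have h4 : ((q * m) • Δ' + (q * B) • (A + Hy) : Place ℂ K → ℚ) P =
          (q * m) * Δ' P + (q * B) * (A P + Hy P) := by
        rw [Pi.add_apply, Pi.smul_apply, Pi.smul_apply, nsmul_eq_mul, nsmul_eq_mul, Pi.add_apply]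
        push_cast
        ring
      rw [h3] at h2
      rw [h4, P.ord_mul hf (pow_ne_zero _ h0), P.ord_pow]
      obtain ⟨l, hl⟩ := exists_centred hy P
      have h5 := hfL P l hP hl
      rw [hL] at h5
      beta_reduce at h5
      have h6 := hHe.1 P hP
      have h7 : (0 : ℚ) ≤ P.ord (y i / y l) := by
        rw [← hH P l hP hl]
        exact h6
      have h8 := hA.1 P hP
      have hBa' : (1 : ℚ) ≤ B := by exact_mod_cast hBa
      have hBb' : (b : ℚ) ≤ B := by exact_mod_cast hBb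
      push_cast
      have h9 := mul_le_mul_of_nonneg_right hBa' h6
      have h10 := mul_le_mul_of_nonneg_right hBb' h8
      have h11 := mul_le_mul_of_nonneg_left h2 hqQ.le
      have h12 := mul_le_mul_of_nonneg_left h9 hqQ.le
      have h13 := mul_le_mul_of_nonneg_left h10 hqQ.le
      linarith
  have h2 := h1 (q * m) (q * B) (by nlinarith) (by
    push_cast
    have h3 := mul_le_mul_of_nonneg_left hBt hqR.le
    linarith) u hu _ E hsec (by
      rw [frm_self hk.self]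
      exact mul_ne_zero hf (pow_ne_zero _ hE0))
  simp only [frm_self hk.self] at h2
  have h3 := deg_pow_div hn hj u hf (fun s => ω s E) hq
  have h4 : ((q ^ j * degreeOver u (fun i : Fin j => ω i.succ E / ω 0 E) : ℕ) : ℝ) ≤
      ε * ((q * m : ℕ) : ℝ) ^ j := le_trans (by exact_mod_cast h3) h2
  rw [hrat]
  push_cast at h4
  rw [mul_pow, mul_left_comm] at h4
  exact le_of_mul_le_mul_left h4 (by positivity)

/-- divisors which are not pseudo-effective -/
theorem numDim_not (hy : NormalModel y) (hc : PicardBasis y c)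
    {x : Fin n → K} {E : Fin n → Derivation ℂ K K} {k : Place ℂ K → ℤ} (hk : Can y x E k) {j : ℕ}
    {Δ : Place ℂ K → ℚ} (hΔ : Fin0 y Δ)
    (h : toR (cls y (cQ c) (fun P => (k P : ℚ) + Δ P)) ∉ CE y c) : NumDimLt y n Δ j := by
  intro A hA ε hε
  have hpc := pc_eff hc.numClasses
  obtain ⟨G, hG⟩ : ∃ G : Place ℂ K → ℚ, G = fun P => (k P : ℚ) + Δ P := ⟨_, rfl⟩
  have hGf : Fin0 y G := by
    rw [hG]
    exact hk.finD hΔ
  rw [← hG] at h
  have hAf : Fin0 y A := hA.2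
  obtain ⟨δ, hδ, hball⟩ := Metric.isOpen_iff.1 hpc.closed.isOpen_compl _ h
  refine ⟨δ / (‖toR (cls y (cQ c) A)‖ + 1), by positivity, 1,
    fun m b hm hb u hu ω E0 hω hω0 => ?_⟩
  exfalso
  have hm0 : (0 : ℝ) < m := by exact_mod_cast hm
  have hE0 : ω 0 E ≠ 0 := (Pool.Agent.N110.ratio_frame hk.frame (hω 0).1 (hω 0).1 hω0).1
  have hf0 : Fin0 y (fun P => (P.ord (ω 0 E) : ℚ)) := fin_cast (finite_ord hy hE0)
  have hf2 : Fin0 y (fun P => (m : ℚ) * G P) := hGf.smul _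
  have hf3 : Fin0 y (fun P => (b : ℚ) * A P) := hAf.smul _
  have heff : Effective y (fun P => (P.ord (ω 0 E) : ℚ) + (m * G P + b * A P)) := by
    refine ⟨fun P hP => ?_, Fin0.add hf0 (Fin0.add hf2 hf3)⟩
    have h1 := ((hk.ord P hP m (ω 0) (hω 0).1 _).1 ((hω 0).2 P hP)).resolve_left hE0
    have h2 : (m • Δ + b • A : Place ℂ K → ℚ) P = m * Δ P + b * A P := by
      rw [Pi.add_apply, Pi.smul_apply, Pi.smul_apply, nsmul_eq_mul, nsmul_eq_mul]
    rw [h2] at h1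
    rw [hG]
    linarith
  have h2 := subset_closure (eff_mem (c := cQ c) heff)
  have hpr : cls y (cQ c) (fun P => (P.ord (ω 0 E) : ℚ)) = 0 := hc.numClasses.principal _ hE0
  rw [cls_add hf0 (Fin0.add hf2 hf3), cls_add hf2 hf3, cls_smul, cls_smul, hpr, zero_add] at h2
  have h3 := hpc.smul (1 / m) (by positivity) _ h2
  have h4 : (1 / (m : ℝ)) • toR ((m : ℚ) • cls y (cQ c) G + (b : ℚ) • cls y (cQ c) A) =
      toR (cls y (cQ c) G) + ((b : ℝ) / m) • toR (cls y (cQ c) A) := by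
    funext j
    simp only [toR, Pi.add_apply, Pi.smul_apply, smul_eq_mul]
    push_cast
    field_simp
  rw [h4] at h3
  refine hball ?_ h3
  rw [Metric.mem_ball, dist_eq_norm, add_sub_cancel_left, norm_smul, Real.norm_eq_abs,
    abs_of_nonneg (by positivity)]
  rw [div_mul_eq_mul_div, le_div_iff₀ (by positivity)] at hb
  rw [div_mul_eq_mul_div, div_lt_iff₀ hm0]
  rcases Nat.eq_zero_or_pos b with hb0 | hb0
  · rw [hb0]
    simp only [Nat.cast_zero, zero_mul]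
    positivity
  · have hb0' : (0 : ℝ) < b := by exact_mod_cast hb0
    nlinarith

/-- **Invariant divisors above tensor fields.** If the class of a tensor field is pseudo-effective
then it is at most the class of a divisor which is fixed by the pull backs. -/
theorem exists_inv (hy : NormalModel y) (hn : Algebra.trdeg ℂ K = n)
    (hc : PicardBasis y c) {𝒯 : Set ((Fin ρ → ℝ) ≃ₗ[ℝ] (Fin ρ → ℝ))}
    (h𝒯 : ∀ T ∈ 𝒯, ∃ ψ, PseudoAut ψ y ∧ IsPullBack y c ψ T)
    {σ : Tensor K r} (hσ : σ ≠ 0) {d : Place ℂ K → ℤ}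
    (hdf : {P | IsPrimeDivisor y P ∧ d P ≠ 0}.Finite)
    (hd : ∀ P, IsPrimeDivisor y P → TOrd P σ (d P)) (hps : divClass y c d ∈ CE y c) :
    ∃ D : Place ℂ K → ℚ, Fin0 y D ∧ (∀ T ∈ 𝒯, T (toR (cls y (cQ c) D)) = toR (cls y (cQ c) D)) ∧
      toR (cls y (cQ c) D) - divClass y c d ∈ CE y c := by
  classical
  have hpc := pc_eff hc.numClasses
  obtain ⟨C, hC0, hCf, hCd⟩ := exists_tdiv hy hn
  obtain ⟨𝒟, h𝒟⟩ : ∃ 𝒟 : Set (Fin ρ → ℝ), 𝒟 = {v | ∃ (σ : Tensor K r) (d : Place ℂ K → ℤ),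
      σ ≠ 0 ∧ {P | IsPrimeDivisor y P ∧ d P ≠ 0}.Finite ∧
      (∀ P, IsPrimeDivisor y P → TOrd P σ (d P)) ∧ v = divClass y c d ∧ v ∈ CE y c} := ⟨_, rfl⟩
  -- the set is finite
  obtain ⟨M, hM, hnorm⟩ := Pool.Agent.H73.MR.normal hpc
  have hfin : 𝒟.Finite := by
    refine (finite_bdd (ρ := ρ) (M * ‖(r : ℝ) • divClass y c C‖)).subset ?_
    intro v hv
    rw [h𝒟] at hv
    obtain ⟨τ, e, hτ, hef, he, rfl, hv⟩ := hv
    refine ⟨divClass_int c e, hnorm _ _ hv ?_⟩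
    obtain ⟨d', -, hd', f, hf0, hf⟩ := hCd hτ
    have h1 : ∀ P, IsPrimeDivisor y P → e P ≤ P.ord f + r * C P := by
      intro P hP
      rw [(he P hP).unique (hd' P hP)]
      exact hf P hP
    have hef' : Fin0 y (fun P => (e P : ℚ)) := fin_cast hef
    have hCf' : Fin0 y (fun P => (C P : ℚ)) := fin_cast hCf
    have hff : Fin0 y (fun P => (P.ord f : ℚ)) := fin_cast (finite_ord hy hf0)
    have h2 : Effective y (fun P => ((P.ord f : ℚ) + (r : ℚ) * C P) - e P) := by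
      refine ⟨fun P hP => ?_, ?_⟩
      · have := h1 P hP
        have h3 : (e P : ℚ) ≤ ((P.ord f + r * C P : ℤ) : ℚ) := by exact_mod_cast this
        push_cast at h3
        linarith
      · have h4 := Fin0.add (Fin0.add hff (hCf'.smul (r : ℚ))) (fin_neg hef')
        refine h4.subset ?_
        rintro P ⟨hP, h0⟩
        refine ⟨hP, fun h5 => h0 ?_⟩
        linear_combination h5
    have h3 := subset_closure (eff_mem (c := cQ c) h2)
    have hpr : cls y (cQ c) (fun P => (P.ord f : ℚ)) = 0 := hc.numClasses.principal f hf0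
    rw [cls_sub (Fin0.add hff (hCf'.smul (r : ℚ))) hef', cls_add hff (hCf'.smul (r : ℚ)), cls_smul,
      hpr, zero_add, toR_sub, toR_smul] at h3
    rw [Pool.Agent.N681.CC.divClass_eq c hef, Pool.Agent.N681.CC.divClass_eq c hCf]
    rw [Rat.cast_natCast] at h3
    exact h3
  -- the set is preserved
  have hpres : ∀ T ∈ 𝒯, ∀ v ∈ 𝒟, T v ∈ 𝒟 := by
    intro T hT v hv
    rw [h𝒟] at hv ⊢
    obtain ⟨τ, e, hτ, hef, he, rfl, hv⟩ := hv
    obtain ⟨φ, hφ, hφT⟩ := h𝒯 T hT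
    have hmov := (Pool.Agent.N608.CC.leafMOV K N ρ y hy c φ hφ T hφT e hef).1
    refine ⟨tmap φ τ, fun P => e (comap φ P), tmap_ne hτ, ?_, fun P hP => ?_, hmov.symm,
      (pull_pres hy hc hφ hφT).1 _ hv⟩
    · have hinj : Function.Injective (comap φ : Place ℂ K → Place ℂ K) := by
        intro P Q h
        rw [← comap_inv_comap φ P, h, comap_inv_comap]
      refine (hef.preimage (f := comap φ) hinj.injOn).subset ?_
      rintro P ⟨hP, h0⟩
      exact ⟨(psaut_iff.1 hφ P).2 hP, h0⟩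
    · exact tmap_ord (he _ ((psaut_iff.1 hφ P).2 hP))
  -- the sum is invariant
  obtain ⟨θ, hθ⟩ : ∃ θ, θ = ∑ v ∈ hfin.toFinset, v := ⟨_, rfl⟩
  have hCE : ∀ v ∈ 𝒟, v ∈ CE y c := by
    intro v hv
    rw [h𝒟] at hv
    obtain ⟨τ, e, -, -, -, -, hv⟩ := hv
    exact hv
  have h0CE : (0 : Fin ρ → ℝ) ∈ CE y c := by
    have := hpc.smul 0 le_rfl _ hps
    rwa [zero_smul] at this
  have hsumCE : ∀ s : Finset (Fin ρ → ℝ), (∀ v ∈ s, v ∈ 𝒟) → ∑ v ∈ s, v ∈ CE y c := by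
    intro s hs
    induction s using Finset.induction_on with
    | empty => rwa [Finset.sum_empty]
    | insert a s ha ih =>
      rw [Finset.sum_insert ha]
      exact hpc.add _ (hCE a (hs a (Finset.mem_insert_self a s))) _
        (ih fun v hv => hs v (Finset.mem_insert_of_mem hv))
  have hθT : ∀ T ∈ 𝒯, T θ = θ := by
    intro T hT
    have himg : hfin.toFinset.image T = hfin.toFinset := by
      refine Finset.eq_of_subset_of_card_le ?_ ?_
      · intro v hv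
        obtain ⟨w, hw, rfl⟩ := Finset.mem_image.1 hv
        exact hfin.mem_toFinset.2 (hpres T hT w (hfin.mem_toFinset.1 hw))
      · rw [Finset.card_image_of_injective _ T.injective]
    rw [hθ, map_sum]
    conv_rhs => rw [← himg]
    rw [Finset.sum_image fun a _ b _ h => T.injective h]
  -- a divisor in the class
  have hrep : ∀ s : Finset (Fin ρ → ℝ), (∀ v ∈ s, v ∈ 𝒟) →
      ∃ D : Place ℂ K → ℚ, Fin0 y D ∧ toR (cls y (cQ c) D) = ∑ v ∈ s, v := by
    intro s hs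
    induction s using Finset.induction_on with
    | empty =>
      refine ⟨fun _ => 0, Set.finite_empty.subset (by rintro P ⟨-, h0⟩; exact h0 rfl), ?_⟩
      have h1 : cls y (cQ c) (fun _ => 0) = 0 := by
        have h2 := cls_smul (y := y) (c := cQ c) (D := fun _ => (0 : ℚ)) (0 : ℚ)
        simpa using h2
      rw [h1, Finset.sum_empty]
      funext i
      simp [toR]
    | insert a s ha ih =>
      obtain ⟨D, hDf, hD⟩ := ih fun v hv => hs v (Finset.mem_insert_of_mem hv)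
      have h1 := hs a (Finset.mem_insert_self a s)
      rw [h𝒟] at h1
      obtain ⟨τ, e, -, hef, -, h2, -⟩ := h1
      have hef' : Fin0 y (fun P => (e P : ℚ)) := fin_cast hef
      refine ⟨fun P => (e P : ℚ) + D P, Fin0.add hef' hDf, ?_⟩
      rw [cls_add hef' hDf, toR_add, hD, Finset.sum_insert ha, h2,
        Pool.Agent.N681.CC.divClass_eq c hef]
  obtain ⟨D, hDf, hD⟩ := hrep hfin.toFinset fun v hv => hfin.mem_toFinset.1 hv
  rw [← hθ] at hD
  have hmem : divClass y c d ∈ hfin.toFinset := by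
    rw [hfin.mem_toFinset, h𝒟]
    exact ⟨σ, d, hσ, hdf, hd, rfl, hps⟩
  refine ⟨D, hDf, fun T hT => by rw [hD]; exact hθT T hT, ?_⟩
  have h1 := Finset.add_sum_erase hfin.toFinset (fun v => v) hmem
  rw [hD, hθ, ← h1, add_sub_cancel_left]
  exact hsumCE _ fun v hv => hfin.mem_toFinset.1 (Finset.mem_of_mem_erase hv)

/-- **The numerical dimension of tensor fields** on a variety whose invariant classes have small
numerical dimension. -/
theorem tnum_inv (hy : NormalModel y) (hn : Algebra.trdeg ℂ K = n) {j : ℕ} (hj : j ≤ n)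
    (hc : PicardBasis y c) {𝒯 : Set ((Fin ρ → ℝ) ≃ₗ[ℝ] (Fin ρ → ℝ))}
    (h𝒯 : ∀ T ∈ 𝒯, ∃ ψ, PseudoAut ψ y ∧ IsPullBack y c ψ T)
    (hinv : ∀ Δ : Place ℂ K → ℚ, {P | IsPrimeDivisor y P ∧ Δ P ≠ 0}.Finite →
      (∀ T ∈ 𝒯, T (realClass y c Δ) = realClass y c Δ) → NumDimLt y n Δ j)
    {σ : Tensor K r} (hσ : σ ≠ 0) : TensorNumDimLt y n σ j := by
  obtain ⟨C, -, -, h1⟩ := exists_tdiv hy hn
  obtain ⟨d, hdf, hd, -⟩ := h1 hσ
  obtain ⟨x, E, k, hk⟩ := exists_can hy hn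
  have hkf : Fin0 y (fun P => (k P : ℚ)) := fin_cast hk.fin
  have hsub : ∀ D : Place ℂ K → ℚ, Fin0 y D → Fin0 y (fun P => D P - k P) := by
    intro D hD
    have h2 : Fin0 y (fun P => D P + (-1) * (k P : ℚ)) := Fin0.add hD (hkf.smul _)
    refine h2.subset ?_
    rintro P ⟨hP, h0⟩
    refine ⟨hP, fun h3 => h0 ?_⟩
    linear_combination h3
  have hadd : ∀ D : Place ℂ K → ℚ, (fun P => (k P : ℚ) + (D P - k P)) = D := by
    intro D
    funext P
    ring
  refine (numDim_iff hk hd).2 ?_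
  by_cases h : toR (cls y (cQ c) (fun P => (d P : ℚ))) ∈ CE y c
  · have hps : divClass y c d ∈ CE y c := by
      rw [Pool.Agent.N681.CC.divClass_eq c hdf]
      exact h
    obtain ⟨D, hDf, hDT, hD⟩ := exists_inv hy hn hc h𝒯 hσ hdf hd hps
    refine numDim_mono hy hn hc hk hj (hsub _ (fin_cast hdf)) (hsub D hDf) ?_
      (hinv _ (hsub D hDf) fun T hT => ?_)
    · rw [hadd, hadd (fun P => (d P : ℚ)), ← Pool.Agent.N681.CC.divClass_eq c hdf]
      exact hD
    · obtain ⟨ψ, h1, h2⟩ := h𝒯 T hT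
      have h3 := can_inv hy hc hk h1 h2
      rw [Pool.Agent.N681.CC.divClass_eq c hk.fin] at h3
      have h4 : realClass y c (fun P => D P - k P) =
          toR (cls y (cQ c) D) - toR (cls y (cQ c) (fun P => (k P : ℚ))) := by
        have h5 : cls y (cQ c) (fun P => D P - k P) = _ := cls_sub hDf hkf
        rw [← toR_sub, ← h5]
        rfl
      rw [h4, map_sub, hDT T hT]
      congr 1
  · refine numDim_not hy hc hk (hsub _ (fin_cast hdf)) ?_
    rw [hadd (fun P => (d P : ℚ))]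
    exact h

end

/-- The `ℚ`-divisors `K_X + Δ` whose class in `N¹(X) ⊗ ℝ` is fixed by the maps in `𝒯` have numerical
dimension less than `j`. (The class of `K_X` is fixed by the pull backs by pseudo-automorphisms.) -/
def InvariantNumDimLt {K : Type} [Field K] [Algebra ℂ K] {N ρ : ℕ} (y : Fin (N + 1) → K) (n : ℕ)
    (c : Place ℂ K → Fin ρ → ℤ) (𝒯 : Set ((Fin ρ → ℝ) ≃ₗ[ℝ] (Fin ρ → ℝ))) (j : ℕ) : Prop :=
  ∀ Δ : Place ℂ K → ℚ, {P | IsPrimeDivisor y P ∧ Δ P ≠ 0}.Finite →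
    (∀ T ∈ 𝒯, T (realClass y c Δ) = realClass y c Δ) → NumDimLt y n Δ j

/-- `ρ = 3`, and the set `𝒯` is a group which is not virtually cyclic. -/
def RankThree {ρ : ℕ} (𝒯 : Set ((Fin ρ → ℝ) ≃ₗ[ℝ] (Fin ρ → ℝ))) : Prop :=
  ρ = 3 ∧ ∃ Γ : Subgroup ((Fin ρ → ℝ) ≃ₗ[ℝ] (Fin ρ → ℝ)), (Γ : Set _) = 𝒯 ∧ ¬ VirtuallyCyclic Γ

section

variable {K : Type} [Field K] [Algebra ℂ K] {N n ρ : ℕ} {y : Fin (N + 1) → K}
  {c : Place ℂ K → Fin ρ → ℤ}

theorem inv_of_no (hy : NormalModel y) (hn : Algebra.trdeg ℂ K = n) (hn0 : 0 < n)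
    (hc : PicardBasis y c) {𝒯 : Set ((Fin ρ → ℝ) ≃ₗ[ℝ] (Fin ρ → ℝ))}
    (h𝒯 : ∀ T ∈ 𝒯, ∃ ψ, PseudoAut ψ y ∧ IsPullBack y c ψ T) (h : NoInvariantClass y c 𝒯) :
    InvariantNumDimLt y n c 𝒯 1 := by
  intro Δ hΔ hT
  obtain ⟨x, E, k, hk⟩ := exists_can hy hn
  exact numDim_zero hy hn hn0 hc hk hΔ (can_alt hy hc hk hΔ h𝒯 hT (noInv_CE hy hc h))

theorem inv_of (hy : NormalModel y) (hn : Algebra.trdeg ℂ K = n) (hn0 : 0 < n)
    (hc : PicardBasis y c) {𝒯 : Set ((Fin ρ → ℝ) ≃ₗ[ℝ] (Fin ρ → ℝ))}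
    (h𝒯 : ∀ T ∈ 𝒯, ∃ ψ, PseudoAut ψ y ∧ IsPullBack y c ψ T) {j : ℕ}
    (h : InvariantNumDimLt y n c 𝒯 j ∨ (j = 1 ∧ (NoInvariantClass y c 𝒯 ∨ FreeOfMaximalRank 𝒯 ∨
      CocompactOnCone y c 𝒯 ∨ RankThree 𝒯))) : InvariantNumDimLt y n c 𝒯 j := by
  rcases h with h | ⟨rfl, h | h | h | ⟨rfl, Γ, rfl, h⟩⟩
  · exact h
  · exact inv_of_no hy hn hn0 hc h𝒯 h
  · exact inv_of_no hy hn hn0 hc h𝒯 (noInv_free hy hc h𝒯 h)
  · exact inv_of_no hy hn hn0 hc h𝒯 (noInv_coc hy hc h𝒯 h)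
  · exact inv_of_no hy hn hn0 hc h𝒯 (noInv_three hy hc h𝒯 h)

end

section

variable {K K' : Type} [Field K] [Algebra ℂ K] [Field K'] [Algebra ℂ K'] {N N' n ρ : ℕ}
  {y : Fin (N + 1) → K} {y' : Fin (N' + 1) → K'}

/-- **Dominated varieties**: the Kodaira dimensions of the rank one sheaves of tensor fields. -/
theorem kodaira_inv (hess : Algebra.EssFiniteType ℂ K) (hy' : NormalModel y')
    (hn : Algebra.trdeg ℂ K = n) (hn' : Algebra.trdeg ℂ K' = n) {j : ℕ} (hj : j ≤ n)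
    {c' : Place ℂ K' → Fin ρ → ℤ} (hc' : PicardBasis y' c')
    {𝒯 : Set ((Fin ρ → ℝ) ≃ₗ[ℝ] (Fin ρ → ℝ))}
    (h𝒯 : ∀ T ∈ 𝒯, ∃ ψ, PseudoAut ψ y' ∧ IsPullBack y' c' ψ T)
    (hinv : InvariantNumDimLt y' n c' 𝒯 j) (π : K →ₐ[ℂ] K') {r : ℕ} {σ : Tensor K r} (hσ : σ ≠ 0)
    {l : ℕ} (hl : j ≤ l) : ¬ TensorKodairaGe n ∅ σ l := by
  intro h
  let _ : Algebra K K' := π.toRingHom.toAlgebra
  have hst : IsScalarTower ℂ K K' := IsScalarTower.of_algebraMap_eq fun c => (π.commutes c).symm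
  have hess' := hy'.ess
  have hfd : FiniteDimensional K K' := finite_map hn hn'
  obtain ⟨x, E, hx, hE⟩ := exists_crd hn (k := ℂ) (K := K)
  have h1 := TP_kodaira (L := K') hess hn hx hE (h.mono hl)
  exact not_kodaira_of_num hy' hn' hj
    (tnum_inv hy' hn' hj hc' h𝒯 hinv (TP_ne hn hx hE hσ)) h1

/-- **Dominated smooth varieties**: the numerical dimensions of the rank one sheaves of tensor
fields. -/
theorem numdim_inv (hy : NormalModel y) (hy' : NormalModel y') (hn : Algebra.trdeg ℂ K = n)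
    (hn' : Algebra.trdeg ℂ K' = n) {j : ℕ} (hj : j ≤ n) (hsm : SmoothModel y n)
    {c' : Place ℂ K' → Fin ρ → ℤ} (hc' : PicardBasis y' c')
    {𝒯 : Set ((Fin ρ → ℝ) ≃ₗ[ℝ] (Fin ρ → ℝ))}
    (h𝒯 : ∀ T ∈ 𝒯, ∃ ψ, PseudoAut ψ y' ∧ IsPullBack y' c' ψ T)
    (hinv : InvariantNumDimLt y' n c' 𝒯 j) (π : K →ₐ[ℂ] K') {r : ℕ} {σ : Tensor K r} (hσ : σ ≠ 0) :
    TensorNumDimLt y n σ j := by
  have hess := hy.ess
  obtain ⟨x, E, hx, hE⟩ := exists_crd hn (k := ℂ) (K := K)
  refine numdim_down hy hy' hn hn' hsm hx hE π hj ?_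
  let _ : Algebra K K' := π.toRingHom.toAlgebra
  have hst : IsScalarTower ℂ K K' := IsScalarTower.of_algebraMap_eq fun c => (π.commutes c).symm
  have hess' := hy'.ess
  have hfd : FiniteDimensional K K' := finite_map hn hn'
  exact tnum_inv hy' hn' hj hc' h𝒯 hinv (TP_ne hn hx hE hσ)

end

end Pool.Agent.H59D
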