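import Pool.Agent.H59D.Num

/-!
Uniform bounds for the pull backs of twisted sections of rank one sheaves of tensor fields on smooth
varieties under multi-valued maps from a fixed variety.
-/

set_option autoImplicit false
set_option linter.overlappingInstances false
set_option linter.unusedSectionVars false

open FF Module MvPolynomial Pool.Agent.W602.GT Pool.Agent.W603.LV Pool.Agent.W619.PQ
open Pool.Agent.Y172 Pool.Agent.Y191 Pool.Agent.R887

namespace Pool.Agent.H59D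

section maps

variable {K L : Type} [Field K] [Algebra ℂ K] [Field L] [Algebra ℂ L] [Algebra K L]
  [IsScalarTower ℂ K L] [FiniteDimensional K L] {N : ℕ} {y : Fin (N + 1) → K} {n : ℕ}

theorem tuniform2 (hy : NormalModel y) (hn : Algebra.trdeg ℂ K = n) (hn0 : 0 < n)
    (hsm : SmoothModel y n) {A : Place ℂ K → ℚ} (hA : Effective y A)
    {Good : Place ℂ L → Prop} {U : Fin n → L} {D : Fin n → Derivation ℂ L L}
    {G : MvPolynomial (Fin n) ℂ} {i0 : Fin n} {c : ℕ} (hs : Src2 Good U D G i0 c)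
    {x : Fin n → K} {E : Fin n → Derivation ℂ K K} (hx : IsTranscendenceBasis ℂ x)
    (hE : ∀ i j, E i (x j) = if i = j then 1 else 0) :
    ∃ (H : L) (β : ℕ), H ≠ 0 ∧ ∀ {r : ℕ} {σ : Tensor K r} (J : Fin r → Fin n) (m b : ℕ), 1 ≤ m →
      ∀ g, IsTwistedTensor y σ m (b • A) g →
      (∀ (P : Place ℂ L) (q : MvPolynomial (Fin n) ℂ), Irreducible q → AdicS P U q →
        P.Reg (algebraMap K L g * tpull L x E σ (fun k => D (J k)) ^ m * H ^ b)) ∧
      (∀ (P : Place ℂ L) (ρ : ℕ), AtInf U P ρ →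
        Ge P (-(((m * (r * c) + b * β : ℕ) : ℤ) * ρ))
          (algebraMap K L g * tpull L x E σ (fun k => D (J k)) ^ m * H ^ b)) := by
  classical
  have hess := hy.ess
  have hU0 : ∀ Q : MvPolynomial (Fin n) ℂ, Q ≠ 0 → aeval U Q ≠ 0 := fun Q hQ h0 =>
    hQ ((injective_iff_map_eq_zero _).1 hs.bas.1 Q h0)
  have : Algebra.EssFiniteType K L := inferInstance
  have hess' : Algebra.EssFiniteType ℂ L := Algebra.EssFiniteType.comp ℂ K L
  have hfd : FiniteDimensional (IntermediateField.adjoin ℂ (Set.range U)) L :=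
    fd_basis hs.bas
  have : Nonempty (Fin n) := ⟨⟨0, hn0⟩⟩
  choose s hsc hs0 hsA using fun j => exists_bound (y := y) hA j
  obtain ⟨h0, hh0, hdom⟩ := dom_poly' hs.bas (Finset.univ.image fun j => algebraMap K L (s j))
  have hfin := finite_inf (k := ℂ) hs.bas
  obtain ⟨T, hT⟩ : ∃ T : ℕ, T = ∑ w ∈ hfin.toFinset, ∑ j, (w.ord (algebraMap K L (s j))).natAbs :=
    ⟨_, rfl⟩
  have hTw : ∀ (w : Place ℂ L) (ρ : ℕ), AtInf U w ρ → ∀ j, w.ord (algebraMap K L (s j)) ≤ T := by
    intro w ρ hw j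
    have h1 : (w.ord (algebraMap K L (s j))).natAbs ≤
        ∑ j, (w.ord (algebraMap K L (s j))).natAbs :=
      Finset.single_le_sum (f := fun j => (w.ord (algebraMap K L (s j))).natAbs)
        (fun _ _ => Nat.zero_le _) (Finset.mem_univ j)
    have h2 : ∑ j, (w.ord (algebraMap K L (s j))).natAbs ≤
        ∑ w ∈ hfin.toFinset, ∑ j, (w.ord (algebraMap K L (s j))).natAbs :=
      Finset.single_le_sum (f := fun w : Place ℂ L =>
        ∑ j, (w.ord (algebraMap K L (s j))).natAbs) (fun _ _ => Nat.zero_le _)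
        (by rw [Set.Finite.mem_toFinset]; exact ⟨ρ, hw⟩)
    rw [← hT] at h2
    omega
  refine ⟨aeval U h0, T + bd (k := ℂ) Finset.univ h0, hU0 h0 hh0,
    fun {r σ} J m b hm g hg => ⟨?_, ?_⟩⟩
  · intro Q q hq hQ
    obtain ⟨hdQ, hQD, -⟩ := hs.adic Q q hq hQ
    have hreg : ∀ R : MvPolynomial (Fin n) ℂ, Q.Reg (aeval U R) := by
      intro R
      by_cases hR : R = 0
      · rw [hR, map_zero]
        exact Q.reg_zero
      · exact Or.inr (hQ R hR).1
    obtain ⟨j, hj⟩ := exists_centred hy (bel K Q)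
    have h1 := smooth_up hy hn hsm hx hE (g := g * s j ^ b) hm hdQ
      (fun P hP ht F hF => twisted_local (hs0 j) (hsA j) hg hj hP ht hF)
      (D := fun k => D (J k)) fun k => hQD _
    have hsj : algebraMap K L (s j) ≠ 0 := by
      rw [Ne, map_eq_zero]
      exact hs0 j
    have e1 : algebraMap K L (g * s j ^ b) * tpull L x E σ (fun k => D (J k)) ^ m =
        algebraMap K L (s j) ^ b * (algebraMap K L g * tpull L x E σ (fun k => D (J k)) ^ m) := by
      rw [map_mul, map_pow]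
      ring
    rw [e1] at h1
    have h2 := Ge.of_mul (pow_ne_zero _ hsj) (show Ge Q 0 _ from h1)
    have h4 : Ge Q (b * Q.ord (aeval U h0)) ((aeval U h0) ^ b) := Or.inr (by rw [Q.ord_pow])
    refine (h2.mul h4).mono ?_
    have h6 := hdom Q hreg (algebraMap K L (s j))
      (Finset.mem_image_of_mem _ (Finset.mem_univ j)) hsj
    rw [Q.ord_pow]
    have h7 : (0 : ℤ) ≤ b := Int.natCast_nonneg _
    nlinarith
  · intro w ρ hw
    have hρ := hw.1
    have hwd : Divisorial n w := hw.divisorial hn0 hs.bas.1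
    obtain ⟨j, hj⟩ := exists_centred hy (bel K w)
    obtain ⟨z, hz⟩ : ∃ z, z = (U i0)⁻¹ ^ c := ⟨_, rfl⟩
    have hUi0 : U i0 ≠ 0 := by
      have := hU0 (X i0) (X_ne_zero _)
      rwa [aeval_X] at this
    have hz0 : z ≠ 0 := by
      rw [hz]
      exact pow_ne_zero _ (inv_ne_zero hUi0)
    have hzo : w.ord z = c * ρ := by
      rw [hz, w.ord_pow, w.ord_inv, hw.crd i0, neg_neg]
    have h1 := smooth_up hy hn hsm hx hE (g := g * s j ^ b) hm hwd
      (fun P hP ht F hF => twisted_local (hs0 j) (hsA j) hg hj hP ht hF)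
      (D := fun k => z • D (J k)) fun k => by
        rw [hz]
        exact hs.inf w ρ hw _
    have hsj : algebraMap K L (s j) ≠ 0 := by
      rw [Ne, map_eq_zero]
      exact hs0 j
    rw [tpull_smul] at h1
    have e1 : algebraMap K L (g * s j ^ b) * (z ^ r * tpull L x E σ fun k => D (J k)) ^ m =
        (z ^ r) ^ m * algebraMap K L (s j) ^ b *
          (algebraMap K L g * tpull L x E σ (fun k => D (J k)) ^ m) := by
      rw [map_mul, map_pow]
      ring
    rw [e1] at h1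
    have hz1 : (z ^ r) ^ m ≠ 0 := pow_ne_zero _ (pow_ne_zero _ hz0)
    have h2 := Ge.of_mul (mul_ne_zero hz1 (pow_ne_zero _ hsj)) (show Ge w 0 _ from h1)
    have h4 : Ge w (b * w.ord (aeval U h0)) ((aeval U h0) ^ b) := Or.inr (by rw [w.ord_pow])
    refine (h2.mul h4).mono ?_
    rw [w.ord_mul hz1 (pow_ne_zero _ hsj), w.ord_pow, w.ord_pow, w.ord_pow, hzo, hw.2 h0 hh0]
    have h7 := hTw w ρ hw j
    have h8 : (1 : ℤ) ≤ ρ := by exact_mod_cast hρ
    have h9 : (0 : ℤ) ≤ b := Int.natCast_nonneg _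
    have h11 : (0 : ℤ) ≤ T := Int.natCast_nonneg _
    have h12 := mul_le_mul_of_nonneg_left h7 h9
    have h13 : (b : ℤ) * T * 1 ≤ b * T * ρ := mul_le_mul_of_nonneg_left h8 (mul_nonneg h9 h11)
    push_cast
    nlinarith

end maps

section source

variable {K' : Type} [Field K'] [Algebra ℂ K'] {N' : ℕ} {y' : Fin (N' + 1) → K'} {n : ℕ}

/-- The quotients of the twisted sections, on the coverings of the source. -/
theorem tsource2 (hy' : NormalModel y') (hn' : Algebra.trdeg ℂ K' = n) (hn0 : 0 < n)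
    {S : Set (Place ℂ K')} (hS : S.Finite) {j' : Fin (N' + 1)} (hj' : y' j' ≠ 0) :
    ∃ M : ℕ, ∀ {K L : Type} [Field K] [Algebra ℂ K] [Field L] [Algebra ℂ L] [Algebra K L]
      [IsScalarTower ℂ K L] [FiniteDimensional K L] [Algebra K' L] [IsScalarTower ℂ K' L]
      [FiniteDimensional K' L] {N : ℕ} {y : Fin (N + 1) → K} {A : Place ℂ K → ℚ},
      NormalModel y → Algebra.trdeg ℂ K = n → SmoothModel y n → Effective y A → Unram L y' S →
      ∃ (β C : ℕ), ∀ {r : ℕ} {σ : Tensor K r}, σ ≠ 0 → ∀ m b : ℕ, 1 ≤ m → ∃ F : K → L,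
        (∀ g, IsTwistedTensor y σ m (b • A) g → g ≠ 0 → F g ≠ 0 ∧
          Bnd ℂ (affL L y' j') (m * (r * M) + b * β + C) (F g)) ∧
        ∀ g g', g ≠ 0 → F g' / F g = algebraMap K L (g' / g) := by
  classical
  obtain ⟨U, D, G, i0, c, hs⟩ := exists_src hy' hn' hn0 hS hj'
  obtain ⟨d, hd⟩ := bnd_chart2 hj' hs.mem
  have hess' := hy'.ess
  have : Nonempty (Fin n) := ⟨⟨0, hn0⟩⟩
  obtain ⟨c2, hc2⟩ : ∃ c2 : ℕ, c2 = c + 1 + bd (k := ℂ) Finset.univ G := ⟨_, rfl⟩
  refine ⟨c2 * d, ?_⟩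
  intro K L _ _ _ _ _ _ _ _ _ _ N y A hy hn hsm hA hun
  obtain ⟨x, E, hx, hE⟩ : ∃ (x : Fin n → K) (E : Fin n → Derivation ℂ K K),
      IsTranscendenceBasis ℂ x ∧ ∀ i j, E i (x j) = if i = j then 1 else 0 := by
    have := hy.ess
    exact exists_crd hn (k := ℂ) (K := K)
  obtain ⟨D', hs2⟩ := src_up hess' hn' hs hun
  rw [← hc2] at hs2
  have hessL : Algebra.EssFiniteType ℂ L := by
    have h1 : Algebra.EssFiniteType K' L := inferInstance
    exact Algebra.EssFiniteType.comp ℂ K' L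
  have hfd : FiniteDimensional (IntermediateField.adjoin ℂ
      (Set.range fun i => algebraMap K' L (U i))) L := fd_basis hs2.bas
  obtain ⟨g0, hg0, C, hC⟩ := lin_bound (k := ℂ) hs2.bas
  have hU0 : ∀ Q : MvPolynomial (Fin n) ℂ, Q ≠ 0 → aeval (fun i => algebraMap K' L (U i)) Q ≠ 0 :=
    fun Q hQ h0 => hQ ((injective_iff_map_eq_zero _).1 hs2.bas.1 Q h0)
  obtain ⟨H, β, hH0, hβ⟩ := tuniform2 hy hn hn0 hsm hA hs2 hx hE
  refine ⟨β * d, C * d, fun {r σ} hσ m b hm => ?_⟩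
  obtain ⟨J, hJ⟩ := tpull_ne hn hx hE hσ hs2.fr
  refine ⟨fun g => algebraMap K L g * tpull L x E σ (fun k => D' (J k)) ^ m * H ^ b *
    aeval (fun i => algebraMap K' L (U i)) g0, ?_, ?_⟩
  · intro g hg hg1
    obtain ⟨h1, h2⟩ := hβ J m b hm g hg
    have h3 : algebraMap K L g * tpull L x E σ (fun k => D' (J k)) ^ m * H ^ b ≠ 0 := by
      refine mul_ne_zero (mul_ne_zero ?_ (pow_ne_zero _ hJ)) (pow_ne_zero _ hH0)
      rwa [Ne, map_eq_zero]
    refine ⟨mul_ne_zero h3 (hU0 g0 hg0), ?_⟩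
    have h4 := hC _ _ h3 h1 fun P ρ hρ hP => h2 P ρ ⟨hρ, hP⟩
    have h5 := hd L _ _ h4
    have h6 : (m * (r * c2) + b * β + C) * d = m * (r * (c2 * d)) + b * (β * d) + C * d := by ring
    rw [h6] at h5
    exact h5
  · intro g g' h1
    have h4 : H ^ b ≠ 0 := pow_ne_zero _ hH0
    have h5 := hU0 g0 hg0
    have h6 : tpull L x E σ (fun k => D' (J k)) ^ m ≠ 0 := pow_ne_zero _ hJ
    have h7 : algebraMap K L g ≠ 0 := by rwa [Ne, map_eq_zero]
    rw [map_div₀]
    field_simp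

end source

end Pool.Agent.H59D
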