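import Pool.Agent.H59D.MultiA

/-!
The numerical dimension of rank one sheaves of tensor fields on smooth varieties is bounded by the
growth of the mixed degrees of multi-valued maps.
-/

set_option autoImplicit false
set_option linter.overlappingInstances false
set_option linter.unusedSectionVars false

open FF Module MvPolynomial Pool.Agent.W602.GT Pool.Agent.W603.LV Pool.Agent.W619.PQ
open Pool.Agent.Y172 Pool.Agent.Y191 Pool.Agent.R887

namespace Pool.Agent.H59D

section

variable {K K' : Type} [Field K] [Algebra ℂ K] [Field K'] [Algebra ℂ K'] {N N' : ℕ}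
  {y : Fin (N + 1) → K} {y' : Fin (N' + 1) → K'} {n : ℕ}

/-- **The numerical dimension of rank one sheaves of tensor fields.** -/
theorem tens_numdim (hy : NormalModel y) (hy' : NormalModel y') (hn : Algebra.trdeg ℂ K = n)
    (hn' : Algebra.trdeg ℂ K' = n) (hn0 : 0 < n) (hsm : SmoothModel y n)
    {j : ℕ} (hj : j ≤ n) {S : Set (Place ℂ K')} (hS : S.Finite)
    (h : ∀ ε : ℝ, 0 < ε → ∃ (L : Type) (_ : Field L) (_ : Algebra ℂ L) (φ : K →ₐ[ℂ] L)
      (ψ : K' →ₐ[ℂ] L), FiniteDimensional ψ.fieldRange L ∧ UnramifiedOutside ψ y' S ∧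
        MultiDegreeLe φ ψ y y' (n - j) j ε) {r : ℕ} {σ : Tensor K r} (hσ : σ ≠ 0) :
    TensorNumDimLt y n σ j := by
  classical
  intro A hA ε hε
  obtain ⟨j', hj'⟩ := hy'.ne
  have hess' := hy'.ess
  have hess := hy.ess
  obtain ⟨M, hM⟩ := tsource2 hy' hn' hn0 hS hj'
  have hM1 : (0 : ℝ) < (r * M + 2) ^ j := by positivity
  obtain ⟨L, _, _, φ, ψ, hψ0, hun, hφ2⟩ := h (ε / (r * M + 2) ^ j) (div_pos hε hM1)
  let _ : Algebra K L := φ.toRingHom.toAlgebra
  let _ : Algebra K' L := ψ.toRingHom.toAlgebra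
  have hst : IsScalarTower ℂ K L := IsScalarTower.of_algebraMap_eq fun c => (φ.commutes c).symm
  have hst' : IsScalarTower ℂ K' L := IsScalarTower.of_algebraMap_eq fun c => (ψ.commutes c).symm
  have hfd' : FiniteDimensional K' L := fd_of_range ψ hψ0
  have hessL : Algebra.EssFiniteType ℂ L := by
    have h1 : Algebra.EssFiniteType K' L := inferInstance
    exact Algebra.EssFiniteType.comp ℂ K' L
  have hnL : Algebra.trdeg ℂ L = n := trdeg_up (K := K') hn'
  have hfd : FiniteDimensional K L := finite_map hn hnL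
  obtain ⟨β, C, hβ⟩ := hM hy hn hsm hA (fun Q Q' e hQ' hQS ho => hun Q' hQ' hQS Q e ho)
  have hdeg : mapDegree φ = Module.finrank K L := by
    unfold mapDegree
    let e : K ≃ₐ[ℂ] φ.fieldRange := AlgEquiv.ofInjectiveField φ
    refine (Algebra.finrank_eq_of_equiv_equiv e.toRingEquiv (RingEquiv.refl L) ?_).symm
    ext x
    rfl
  have hdeg0 : (0 : ℝ) < Module.finrank K L := by
    exact_mod_cast Module.finrank_pos
  refine ⟨1 / (β + 1), by positivity, C + 1, fun m b hm hb u hu g hg hg0 => ?_⟩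
  have hm1 : 1 ≤ m := by omega
  have hm0 : (0 : ℝ) < m := by exact_mod_cast hm1
  obtain ⟨w, hw⟩ : ∃ w : Fin j → K, w = fun i => g i.succ / g 0 := ⟨_, rfl⟩
  rw [← hw, degreeOver_eq]
  by_cases h0 : dg ℂ (Sum.elim u w) = 0
  · rw [h0]
    push_cast
    positivity
  have hcard : Nat.card (Fin (n - j) ⊕ Fin j) = n := by
    rw [Nat.card_eq_fintype_card, Fintype.card_sum, Fintype.card_fin, Fintype.card_fin]
    omega
  have hbas := basis_of_dg (k := ℂ) (w := Sum.elim u w) (by rw [hn, hcard]) h0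
  -- the sections are not zero
  have hgi : ∀ i, g i ≠ 0 := by
    intro i
    refine Fin.cases hg0 (fun i => ?_) i
    intro h2
    have h4 := hbas.1.ne_zero (Sum.inr i)
    rw [Sum.elim_inr, hw] at h4
    simp only [] at h4
    rw [h2, zero_div] at h4
    exact h4 rfl
  obtain ⟨F, hF1, hF2⟩ := hβ hσ m b hm1
  obtain ⟨B, hB⟩ : ∃ B, B = m * (r * M) + b * β + C := ⟨_, rfl⟩
  -- replace the sections by pencils
  have hwE : ∀ i, algebraMap K L (w i) = F (g i.succ) / F (g 0) := by
    intro i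
    rw [hF2 _ _ hg0, hw]
  obtain ⟨v, hv1, hv2, hv3⟩ := replace_all (k := ℂ) (K := L) (ι := Fin (n - j) ⊕ Fin j)
    (by rw [hnL, hcard]) (S := affL L y' j') (Set.finite_range _)
    ⟨j', by simp only []; rw [div_self hj', map_one]⟩ (B := B)
    (f₀ := F (g 0)) (hF1 _ (hg 0) hg0).1 (by rw [hB]; exact (hF1 _ (hg 0) hg0).2)
    (Finset.univ.image Sum.inr) (fun i => algebraMap K L (Sum.elim u w i))
    (Sum.elim (fun _ => 1) fun i => F (g i.succ)) (by
      intro i hi
      obtain ⟨a, -, rfl⟩ := Finset.mem_image.1 hi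
      exact (hF1 _ (hg _) (hgi _)).1) (by
      intro i hi
      obtain ⟨a, -, rfl⟩ := Finset.mem_image.1 hi
      rw [hB]
      exact (hF1 _ (hg _) (hgi _)).2) (by
      intro i hi
      obtain ⟨a, -, rfl⟩ := Finset.mem_image.1 hi
      exact hwE a)
  choose v' hv'1 hv'2 using fun i => pencil_of_span2 (y' := y') ψ (fun _ => rfl) hj'
    (hv1 (Sum.inr i) (Finset.mem_image_of_mem _ (Finset.mem_univ i)))
  have h1 : dg ℂ v = degreeOver (fun a => φ (u a)) (fun i => ψ (v' i)) := by
    rw [degreeOver_eq]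
    congr 1
    funext i
    rcases i with i | i
    · rw [hv2 (Sum.inl i) (by simp)]
      rfl
    · exact hv'2 i
  have h2 := hφ2 u hu v' hv'1
  rw [← h1, hdeg] at h2
  rw [dg_tower, Finset.card_image_of_injective _ Sum.inr_injective, Finset.card_univ,
    Fintype.card_fin] at hv3
  have h3 : (dg ℂ (Sum.elim u w) : ℝ) * Module.finrank K L ≤ (B : ℝ) ^ j * dg ℂ v := by
    exact_mod_cast hv3
  have h4 : (B : ℝ) ≤ m * (r * M + 2) := by
    rw [hB]
    push_cast
    have h5 : (C : ℝ) + 1 ≤ m := by exact_mod_cast hm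
    have h6 : (0 : ℝ) ≤ r * M := by positivity
    have h7 : (b : ℝ) * (β + 1) ≤ m := by
      have h8 : (0 : ℝ) < β + 1 := by positivity
      have h9 := mul_le_mul_of_nonneg_right hb h8.le
      have h10 : 1 / ((β : ℝ) + 1) * m * (β + 1) = m := by field_simp
      linarith
    have h8 : (0 : ℝ) ≤ b := Nat.cast_nonneg _
    nlinarith
  have h5 : (B : ℝ) ^ j ≤ m ^ j * (r * M + 2) ^ j := by
    rw [← mul_pow]
    exact pow_le_pow_left₀ (Nat.cast_nonneg _) h4 j
  have h6 : (dg ℂ (Sum.elim u w) : ℝ) * Module.finrank K L ≤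
      (ε * m ^ j) * Module.finrank K L := by
    calc (dg ℂ (Sum.elim u w) : ℝ) * Module.finrank K L ≤ (B : ℝ) ^ j * dg ℂ v := h3
      _ ≤ (m ^ j * (r * M + 2) ^ j) * dg ℂ v :=
        mul_le_mul_of_nonneg_right h5 (Nat.cast_nonneg _)
      _ ≤ (m ^ j * (r * M + 2) ^ j) * (ε / (r * M + 2) ^ j * Module.finrank K L) :=
        mul_le_mul_of_nonneg_left h2 (by positivity)
      _ = (ε * m ^ j) * Module.finrank K L := by
        field_simp
  exact le_of_mul_le_mul_right h6 hdeg0

end

end Pool.Agent.H59D
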