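import Pool.Agent.H59D.Smooth

/-!
Rank one sheaves of tensor fields and log pairs: the divisor `D` of a tensor field is written as
`K_X + Δ`. Nonvanishing for rank one sheaves of tensor fields of numerical dimension zero.
-/

set_option autoImplicit false
set_option linter.overlappingInstances false
set_option linter.unusedSectionVars false

open FF Module MvPolynomial Pool.Agent.W602.GT Pool.Agent.W603.LV Pool.Agent.W619.PQ
open Pool.Agent.Y172 Pool.Agent.Y191 Pool.Agent.R887
open Pool.Agent.N110 Pool.Agent.N110.PA Pool.Agent.N110.NV Pool.Agent.N492.PA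
open Pool.Agent.N110.CC

namespace Pool.Agent.H59D

section

variable {K : Type} [Field K] [Algebra ℂ K] {N n r : ℕ} {y : Fin (N + 1) → K}
  {σ : Tensor K r} {d : Place ℂ K → ℤ}

/-- twisted sections in terms of the divisor of the tensor field -/
theorem twisted_iff (hd : ∀ P, IsPrimeDivisor y P → TOrd P σ (d P)) {g : K} (hg : g ≠ 0) {m : ℕ}
    {B : Place ℂ K → ℚ} : IsTwistedTensor y σ m B g ↔
      ∀ P, IsPrimeDivisor y P → -(B P) ≤ (P.ord g : ℚ) + m * d P := by
  constructor
  · intro h P hP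
    obtain ⟨-, E, hE, h2, h3⟩ := hd P hP
    have h4 := (h P hP E hE).resolve_left (mul_ne_zero hg (pow_ne_zero _ h2))
    rw [P.ord_mul hg (pow_ne_zero _ h2), P.ord_pow, h3] at h4
    push_cast at h4
    exact h4
  · intro h P hP E hE
    by_cases h0 : σ E = 0
    · by_cases hm : m = 0
      · right
        rw [hm, pow_zero, mul_one]
        have := h P hP
        rw [hm, Nat.cast_zero, zero_mul, add_zero] at this
        exact this
      · left
        rw [h0, zero_pow hm, mul_zero]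
    · right
      have h2 := ((hd P hP).1 E hE).resolve_left h0
      rw [P.ord_mul hg (pow_ne_zero _ h0), P.ord_pow]
      have h3 : (d P : ℚ) ≤ P.ord (σ E) := by exact_mod_cast h2
      have h4 := mul_le_mul_of_nonneg_left h3 (Nat.cast_nonneg (α := ℚ) m)
      push_cast
      have := h P hP
      linarith

/-- untwisted sections -/
theorem reg_iff (hd : ∀ P, IsPrimeDivisor y P → TOrd P σ (d P)) {g : K} (hg : g ≠ 0) {m : ℕ} :
    (∀ P, IsPrimeDivisor y P → ∀ E : Fin r → Derivation ℂ K K, (∀ k, DerReg P (E k)) →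
      P.Reg (g * σ E ^ m)) ↔ ∀ P, IsPrimeDivisor y P → 0 ≤ P.ord g + m * d P := by
  constructor
  · intro h P hP
    exact ((hd P hP).sec hg m 0).1 fun E hE => h P hP E hE
  · intro h P hP
    exact ((hd P hP).sec hg m 0).2 (h P hP)

/-- pseudo-effective rank one sheaves -/
theorem psef_iff (hd : ∀ P, IsPrimeDivisor y P → TOrd P σ (d P)) :
    TensorPsef y σ ↔ PsefD y (fun P => (d P : ℚ)) := by
  have key : ∀ (i : Fin (N + 1)) (q m : ℕ) (g : K), y i ≠ 0 → g ≠ 0 → ∀ P l, IsPrimeDivisor y P →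
      Centred y l P → ((∀ E : Fin r → Derivation ℂ K K, (∀ k, DerReg P (E k)) →
        P.Reg (g * σ E ^ (m * q) * (y i / y l) ^ m)) ↔
        0 ≤ (P.ord g : ℚ) + m * (q * d P + P.ord (y i / y l))) := by
    intro i q m g hi hg P l hP hl
    have hyl : (y i / y l) ^ m ≠ 0 := pow_ne_zero _ (div_ne_zero hi hl.1)
    have h1 := (hd P hP).sec (mul_ne_zero hg hyl) (m * q) 0
    rw [P.ord_mul hg hyl, P.ord_pow] at h1
    have h2 : (0 ≤ P.ord g + (m : ℤ) * P.ord (y i / y l) + ((m * q : ℕ) : ℤ) * d P) ↔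
        0 ≤ (P.ord g : ℚ) + m * (q * d P + P.ord (y i / y l)) := by
      have h3 : (P.ord g : ℚ) + m * (q * d P + P.ord (y i / y l)) =
          ((P.ord g + (m : ℤ) * P.ord (y i / y l) + ((m * q : ℕ) : ℤ) * d P : ℤ) : ℚ) := by
        push_cast
        ring
      rw [h3]
      exact_mod_cast Iff.rfl
    rw [← h2, ← h1]
    refine forall₂_congr fun E _ => ?_
    have h3 : g * σ E ^ (m * q) * (y i / y l) ^ m = g * (y i / y l) ^ m * σ E ^ (m * q) := by ring
    rw [h3]
    exact Iff.rfl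
  constructor
  · intro h i hi q hq
    obtain ⟨m, hm, g, hg, h1⟩ := h i hi q hq
    exact ⟨m, hm, g, hg, fun P l hP hl => (key i q m g hi hg P l hP hl).1 (h1 P l hP hl)⟩
  · intro h i hi q hq
    obtain ⟨m, hm, g, hg, h1⟩ := h i hi q hq
    exact ⟨m, hm, g, hg, fun P l hP hl => (key i q m g hi hg P l hP hl).2 (h1 P l hP hl)⟩

variable {x : Fin n → K} {E : Fin n → Derivation ℂ K K} {k : Place ℂ K → ℤ}

theorem sub_add_fun : (fun P => (k P : ℚ) + ((d P : ℚ) - k P)) = fun P => (d P : ℚ) := by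
  funext P
  ring

/-- the log pair: sections -/
theorem isSection_iff' (hk : Can y x E k) (hd : ∀ P, IsPrimeDivisor y P → TOrd P σ (d P))
    {m : ℕ} {B : Place ℂ K → ℚ} {ω : (Fin n → Derivation ℂ K K) → K} (hω : IsPluri m ω)
    (h0 : ω E ≠ 0) : IsSection y n m (m • (fun P => (d P : ℚ) - k P) + B) ω ↔
      IsTwistedTensor y σ m B (ω E) := by
  rw [twisted_iff hd h0]
  have key : ∀ P, IsPrimeDivisor y P →
      (OrdGe P ω (-((m • (fun P => (d P : ℚ) - k P) + B : Place ℂ K → ℚ) P)) ↔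
        -(B P) ≤ (P.ord (ω E) : ℚ) + m * d P) := by
    intro P hP
    rw [hk.ord P hP m ω hω]
    have h2 : (m • (fun P => (d P : ℚ) - k P) + B : Place ℂ K → ℚ) P =
        m * ((d P : ℚ) - k P) + B P := by
      rw [Pi.add_apply, Pi.smul_apply, nsmul_eq_mul]
    rw [h2]
    constructor
    · intro h
      have := h.resolve_left h0
      linarith
    · intro h
      right
      linarith
  exact ⟨fun h P hP => (key P hP).1 (h.2 P hP), fun h => ⟨hω, fun P hP => (key P hP).2 (h P hP)⟩⟩

/-- the numerical dimension of the log pair and the one of the rank one sheaf -/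
theorem numDim_iff (hk : Can y x E k) (hd : ∀ P, IsPrimeDivisor y P → TOrd P σ (d P)) {j : ℕ} :
    TensorNumDimLt y n σ j ↔ NumDimLt y n (fun P => (d P : ℚ) - k P) j := by
  constructor
  · intro h A hA ε hε
    obtain ⟨t, ht, m₀, hm⟩ := h A hA ε hε
    refine ⟨t, ht, m₀, fun m b hm0 hb u hu ω E0 hω h0 => ?_⟩
    have hE0 : ω 0 E ≠ 0 := (Pool.Agent.N110.ratio_frame hk.frame (hω 0).1 (hω 0).1 h0).1
    have h1 : (fun i : Fin j => ω i.succ E0 / ω 0 E0) = fun i : Fin j => ω i.succ E / ω 0 E := by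
      funext i
      exact (Pool.Agent.N110.ratio_frame hk.frame (hω 0).1 (hω i.succ).1 h0).2
    rw [h1]
    refine hm m b hm0 hb u hu (fun i => ω i E) (fun i => ?_) hE0
    by_cases h2 : ω i E = 0
    · intro P hP F hF
      left
      simp only [h2, zero_mul]
    · exact (isSection_iff' hk hd (hω i).1 h2).1 (hω i)
  · intro h A hA ε hε
    obtain ⟨t, ht, m₀, hm⟩ := h A hA ε hε
    refine ⟨t, ht, m₀, fun m b hm0 hb u hu g hg h0 => ?_⟩
    have h1 := hm m b hm0 hb u hu (fun i => frm x m (g i)) E (fun i => ?_) (by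
      rw [frm_self hk.self]
      exact h0)
    · simp only [frm_self hk.self] at h1
      exact h1
    · by_cases h2 : g i = 0
      · refine ⟨frm_pluri x m _, fun P hP => ?_⟩
        rw [hk.ord P hP m _ (frm_pluri x m _), frm_self hk.self]
        exact Or.inl h2
      · refine (isSection_iff' hk hd (frm_pluri x m _) (by rwa [frm_self hk.self])).2 ?_
        rw [frm_self hk.self]
        exact hg i

end

section

variable {K : Type} [Field K] [Algebra ℂ K] {N n r : ℕ} {y : Fin (N + 1) → K}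
  {σ : Tensor K r}

/-- **Nonvanishing** for rank one sheaves of tensor fields: the sections are regular along the prime
divisors of `X`. -/
theorem nonvanishing_prime (hy : NormalModel y) (hn : Algebra.trdeg ℂ K = n) (hn0 : 0 < n)
    (hσ : σ ≠ 0) (hq : IrregularityZero y) (hnum : TensorNumDimLt y n σ 1)
    (hps : TensorPsef y σ) : ∃ m : ℕ, 1 ≤ m ∧ ∃ g : K, g ≠ 0 ∧
      ∀ P, IsPrimeDivisor y P → ∀ E : Fin r → Derivation ℂ K K, (∀ k, DerReg P (E k)) →
        P.Reg (g * σ E ^ m) := by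
  obtain ⟨C, -, -, h1⟩ := exists_tdiv hy hn
  obtain ⟨d, hdf, hd, -⟩ := h1 hσ
  obtain ⟨x, E, k, hk⟩ := exists_can hy hn
  have hΔ : Fin0 y (fun P => (d P : ℚ) - k P) := by
    have h2 : Fin0 y (fun P => (d P : ℚ) + (-1) * (k P : ℚ)) :=
      Fin0.add (fin_cast hdf) ((fin_cast hk.fin).smul _)
    refine h2.subset ?_
    rintro P ⟨hP, h0⟩
    refine ⟨hP, fun h3 => h0 ?_⟩
    linear_combination h3
  obtain ⟨m, hm, ω, hω0, hω⟩ := NV.nonvanishing hy hn hn0 hΔ (hk.logPsef (by
    rw [sub_add_fun]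
    exact (psef_iff hd).1 hps)) ((numDim_iff hk hd).1 hnum) hq
  have hE0 : ω E ≠ 0 := fun h0 => hω0 (pluri_zero hk.frame hω.1 h0)
  refine ⟨m, hm, ω E, hE0, (reg_iff hd hE0).2 fun P hP => ?_⟩
  have h2 : m • (fun P => (d P : ℚ) - k P) = m • (fun P => (d P : ℚ) - k P) + 0 := by
    rw [add_zero]
  rw [h2] at hω
  have h3 := (twisted_iff hd hE0).1 ((isSection_iff' hk hd hω.1 hE0).1 hω) P hP
  have h4 : (0 : ℚ) ≤ ((P.ord (ω E) + m * d P : ℤ) : ℚ) := by
    push_cast
    have h5 : (0 : Place ℂ K → ℚ) P = 0 := rfl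
    rw [h5] at h3
    linarith
  exact_mod_cast h4

/-- **Nonvanishing** for rank one sheaves of tensor fields on smooth varieties. -/
theorem nonvanishing_smooth (hy : NormalModel y) (hn : Algebra.trdeg ℂ K = n) (hn0 : 0 < n)
    (hsm : SmoothModel y n) (hσ : σ ≠ 0) (hq : IrregularityZero y)
    (hnum : TensorNumDimLt y n σ 1) (hps : TensorPsef y σ) : TensorKodairaGe n ∅ σ 0 := by
  obtain ⟨m, hm, g, hg, h⟩ := nonvanishing_prime hy hn hn0 hσ hq hnum hps
  refine ⟨m, hm, fun _ => g, fun _ => smooth_reg hy hsm hm h, hg, ?_⟩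
  exact algebraicIndependent_empty_type

/-- rank one sheaves with a section are pseudo-effective -/
theorem psef_of_kodaira (hy : NormalModel y) (hn : Algebra.trdeg ℂ K = n)
    (h : TensorKodairaGe n ∅ σ 0) : TensorPsef y σ := by
  obtain ⟨m, hm, g, hg, hg0, -⟩ := h
  intro i hi q hq
  refine ⟨m, hm, g 0 ^ q, pow_ne_zero _ hg0, fun P l hP hl E hE => ?_⟩
  have h1 := (hg 0).2 P (hP.divisorial hy hn) (Set.notMem_empty P) E hE
  have h2 : g 0 ^ q * σ E ^ (m * q) * (y i / y l) ^ m = (g 0 * σ E ^ m) ^ q * (y i / y l) ^ m := by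
    rw [mul_pow, pow_mul]
  rw [h2]
  have h3 : Ge P 0 ((g 0 * σ E ^ m) ^ q) := by
    have := (show Ge P 0 (g 0 * σ E ^ m) from h1).pow q
    rwa [mul_zero] at this
  have h4 : Ge P 0 ((y i / y l) ^ m) := by
    have := (show Ge P 0 (y i / y l) from hl.2 i).pow m
    rwa [mul_zero] at this
  have h5 := h3.mul h4
  rwa [add_zero] at h5

end

section power

variable {K : Type} [Field K] [Algebra ℂ K] {n r m : ℕ}

theorem tpow_aux [DecidableEq (Fin (m * r))] (σ : Tensor K r) (E : Fin (m * r) → Derivation ℂ K K) (j0 : Fin m)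
    (i0 : Fin r) (z : Derivation ℂ K K) :
    (∏ j : Fin m, σ fun i => Function.update E (finProdFinEquiv (j0, i0)) z
      (finProdFinEquiv (j, i))) =
      σ (Function.update (fun i => E (finProdFinEquiv (j0, i))) i0 z) *
        ∏ j ∈ Finset.univ.erase j0, σ fun i => E (finProdFinEquiv (j, i)) := by
  rw [← Finset.mul_prod_erase Finset.univ _ (Finset.mem_univ j0)]
  congr 1
  · congr 1
    funext i
    by_cases hi : i = i0
    · rw [hi, Function.update_self, Function.update_self]
    · rw [Function.update_of_ne hi, Function.update_of_ne]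
      intro h
      exact hi (Prod.mk.inj (finProdFinEquiv.injective h)).2
  · refine Finset.prod_congr rfl fun j hj => ?_
    congr 1
    funext i
    rw [Function.update_of_ne]
    intro h
    exact (Finset.ne_of_mem_erase hj) (Prod.mk.inj (finProdFinEquiv.injective h)).1

/-- the `m`-th power of a tensor field, multiplied by a function -/
noncomputable def tpow (σ : Tensor K r) (m : ℕ) (g : K) : Tensor K (m * r) where
  toFun E := g * ∏ j : Fin m, σ fun i => E (finProdFinEquiv (j, i))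
  map_update_add' := by
    intro i1 E s a b
    obtain ⟨⟨j0, i0⟩, rfl⟩ : ∃ p, finProdFinEquiv p = s := ⟨_, finProdFinEquiv.apply_symm_apply s⟩
    rw [tpow_aux, tpow_aux, tpow_aux, MultilinearMap.map_update_add]
    ring
  map_update_smul' := by
    intro i1 E s a b
    obtain ⟨⟨j0, i0⟩, rfl⟩ : ∃ p, finProdFinEquiv p = s := ⟨_, finProdFinEquiv.apply_symm_apply s⟩
    rw [tpow_aux, tpow_aux, MultilinearMap.map_update_smul]
    simp only [smul_eq_mul]
    ring

theorem tpow_apply (σ : Tensor K r) (m : ℕ) (g : K) (E : Fin (m * r) → Derivation ℂ K K) :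
    tpow σ m g E = g * ∏ j : Fin m, σ fun i => E (finProdFinEquiv (j, i)) := rfl

theorem tpow_ne {σ : Tensor K r} (hσ : σ ≠ 0) (m : ℕ) {g : K} (hg : g ≠ 0) : tpow σ m g ≠ 0 := by
  intro h
  obtain ⟨E, hE⟩ : ∃ E, σ E ≠ 0 := by
    by_contra hcon
    push Not at hcon
    exact hσ (MultilinearMap.ext hcon)
  have h1 : tpow σ m g (fun s => E (finProdFinEquiv.symm s).2) = 0 := by
    rw [h]
    rfl
  rw [tpow_apply] at h1
  simp only [Equiv.symm_apply_apply, Finset.prod_const, Finset.card_univ, Fintype.card_fin] at h1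
  rcases mul_eq_zero.1 h1 with h2 | h2
  · exact hg h2
  · exact pow_ne_zero _ hE h2

/-- a section of a positive power gives a tensor differential -/
theorem tpow_reg {σ : Tensor K r} {m : ℕ} {g : K} (hm : 1 ≤ m)
    (h : IsTensorSection n ∅ σ m g) (Q : Place ℂ K) (hQ : Divisorial n Q)
    (E : Fin (m * r) → Derivation ℂ K K) (hE : ∀ k, DerReg Q (E k)) : Q.Reg (tpow σ m g E) := by
  classical
  rw [tpow_apply]
  by_cases hg : g = 0
  · rw [hg, zero_mul]
    exact Q.reg_zero
  by_cases h0 : ∏ j : Fin m, σ (fun i => E (finProdFinEquiv (j, i))) = 0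
  · rw [h0, mul_zero]
    exact Q.reg_zero
  rw [← ne_eq, Finset.prod_ne_zero_iff] at h0
  have hm0 : (0 : ℤ) < m := by exact_mod_cast hm
  have h1 : ∀ j : Fin m, 0 ≤ Q.ord g + m * Q.ord (σ fun i => E (finProdFinEquiv (j, i))) := by
    intro j
    have h2 := h.2 Q hQ (Set.notMem_empty Q) (fun i => E (finProdFinEquiv (j, i))) fun k => hE _
    have h3 := (Q.reg_iff (mul_ne_zero hg (pow_ne_zero _ (h0 j (Finset.mem_univ j))))).1 h2
    rwa [Q.ord_mul hg (pow_ne_zero _ (h0 j (Finset.mem_univ j))), Q.ord_pow] at h3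
  have h4 : ∀ s : Finset (Fin m), Q.ord (∏ j ∈ s, σ fun i => E (finProdFinEquiv (j, i))) =
      ∑ j ∈ s, Q.ord (σ fun i => E (finProdFinEquiv (j, i))) := by
    intro s
    induction s using Finset.induction_on with
    | empty => simp [Q.ord_one]
    | insert j s hj ih =>
      rw [Finset.prod_insert hj, Finset.sum_insert hj, Q.ord_mul (h0 j (Finset.mem_univ j))
        (Finset.prod_ne_zero_iff.2 fun j _ => h0 j (Finset.mem_univ j)), ih]
  have h5 : ∏ j : Fin m, σ (fun i => E (finProdFinEquiv (j, i))) ≠ 0 :=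
    Finset.prod_ne_zero_iff.2 h0
  refine (Q.reg_iff (mul_ne_zero hg h5)).2 ?_
  rw [Q.ord_mul hg h5, h4]
  have h6 : (0 : ℤ) ≤ ∑ j : Fin m, (Q.ord g + m * Q.ord (σ fun i => E (finProdFinEquiv (j, i)))) :=
    Finset.sum_nonneg fun j _ => h1 j
  rw [Finset.sum_add_distrib, ← Finset.mul_sum, Finset.sum_const, Finset.card_univ,
    Fintype.card_fin, nsmul_eq_mul, ← mul_add] at h6
  exact nonneg_of_mul_nonneg_right h6 hm0

/-- without tensor differentials there are no sections -/
theorem not_kodaira {σ : Tensor K r} (hσ : σ ≠ 0) (hr : 1 ≤ r) (h : NoTensors K n) :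
    ¬ TensorKodairaGe n ∅ σ 0 := by
  rintro ⟨m, hm, g, hg, hg0, -⟩
  exact tpow_ne hσ m hg0 (h (m * r) (Nat.mul_pos hm hr) _ fun Q hQ E hE =>
    tpow_reg hm (hg 0) Q hQ E hE)

end power

end Pool.Agent.H59D
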