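import Pool.Agent.H59D.Defs
import Pool.Agent.R887.TensD
import Pool.Agent.H59C.Num
import Pool.Agent.N110.NV.Fin

/-!
The divisor of a rational tensor field on a normal projective variety.
-/

set_option autoImplicit false
set_option linter.overlappingInstances false
set_option linter.unusedSectionVars false

open FF Module MvPolynomial Pool.Agent.W602.GT Pool.Agent.W603.LV Pool.Agent.W619.PQ
open Pool.Agent.Y172 Pool.Agent.Y191 Pool.Agent.R887
open Pool.Agent.N110 Pool.Agent.N110.PA Pool.Agent.N110.NV Pool.Agent.N492.PA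
open Pool.Agent.N110.CC

namespace Pool.Agent.H59D

section

variable {K : Type} [Field K] [Algebra ℂ K] {N n r : ℕ} {y : Fin (N + 1) → K}

/-- the order of a tensor field along a place -/
def TOrd (P : Place ℂ K) (σ : Tensor K r) (d : ℤ) : Prop :=
  (∀ E : Fin r → Derivation ℂ K K, (∀ k, DerReg P (E k)) → Ge P d (σ E)) ∧
    ∃ E : Fin r → Derivation ℂ K K, (∀ k, DerReg P (E k)) ∧ σ E ≠ 0 ∧ P.ord (σ E) = d

theorem TOrd.unique {P : Place ℂ K} {σ : Tensor K r} {d d' : ℤ} (h : TOrd P σ d)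
    (h' : TOrd P σ d') : d = d' := by
  obtain ⟨h1, E, hE, h2, h3⟩ := h
  obtain ⟨h1', E', hE', h2', h3'⟩ := h'
  have h4 := (h1 E' hE').resolve_left h2'
  have h5 := (h1' E hE).resolve_left h2
  omega

/-- some value on a frame is not zero -/
theorem exists_val {x : Fin n → K} {E : Fin n → Derivation ℂ K K}
    (hx : IsTranscendenceBasis ℂ x) (hE : ∀ i j, E i (x j) = if i = j then 1 else 0)
    {σ : Tensor K r} (hσ : σ ≠ 0) : ∃ I : Fin r → Fin n, σ (fun k => E (I k)) ≠ 0 := by
  by_contra hcon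
  push Not at hcon
  apply hσ
  ext F
  rw [tensor_coord hx hE σ F, zero_apply]
  refine Finset.sum_eq_zero fun I _ => ?_
  rw [hcon I, mul_zero]

/-- the values on a frame determine the order, from below -/
theorem ge_frame {P : Place ℂ K} {x : Fin n → K} {E : Fin n → Derivation ℂ K K}
    (hx : IsTranscendenceBasis ℂ x) (hE : ∀ i j, E i (x j) = if i = j then 1 else 0)
    (hreg : ∀ i, P.Reg (x i)) {σ : Tensor K r} {d : ℤ}
    (h : ∀ I : Fin r → Fin n, Ge P d (σ fun k => E (I k))) {D : Fin r → Derivation ℂ K K}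
    (hD : ∀ k, DerReg P (D k)) : Ge P d (σ D) := by
  rw [tensor_coord hx hE σ D]
  refine Ge.sum _ _ fun I _ => ?_
  have h1 : Ge P 0 (∏ k, D k (x (I k))) := by
    have := Ge.prod (P := P) Finset.univ (fun k => D k (x (I k))) (fun _ => 0)
      fun k _ => hD k _ (hreg _)
    simpa using this
  have := h1.mul (h I)
  rwa [zero_add] at this

/-- the order of a tensor field in terms of local coordinates -/
theorem tord_frame {P : Place ℂ K} {x : Fin n → K} {E : Fin n → Derivation ℂ K K}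
    (hx : IsTranscendenceBasis ℂ x) (hE : ∀ i j, E i (x j) = if i = j then 1 else 0)
    (hreg : ∀ i, P.Reg (x i)) (hpres : ∀ i, DerReg P (E i)) {σ : Tensor K r} (hσ : σ ≠ 0) :
    ∃ I : Fin r → Fin n, σ (fun k => E (I k)) ≠ 0 ∧ TOrd P σ (P.ord (σ fun k => E (I k))) := by
  classical
  obtain ⟨I0, hI0⟩ := exists_val hx hE hσ
  obtain ⟨I, hI, hmin⟩ := Finset.exists_min_image
    (Finset.univ.filter fun I : Fin r → Fin n => σ (fun k => E (I k)) ≠ 0)
    (fun I => P.ord (σ fun k => E (I k))) ⟨I0, by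
      rw [Finset.mem_filter]
      exact ⟨Finset.mem_univ _, hI0⟩⟩
  rw [Finset.mem_filter] at hI
  refine ⟨I, hI.2, fun D hD => ge_frame hx hE hreg (fun J => ?_) hD, fun k => E (I k),
    fun k => hpres _, hI.2, rfl⟩
  by_cases hJ : σ (fun k => E (J k)) = 0
  · exact Or.inl hJ
  · exact Or.inr (hmin J (by
      rw [Finset.mem_filter]
      exact ⟨Finset.mem_univ _, hJ⟩))

/-- the sections in terms of the order -/
theorem TOrd.sec {P : Place ℂ K} {σ : Tensor K r} {d : ℤ} (h : TOrd P σ d) {g : K} (hg : g ≠ 0)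
    (m : ℕ) (a : ℤ) :
    (∀ E : Fin r → Derivation ℂ K K, (∀ k, DerReg P (E k)) → Ge P a (g * σ E ^ m)) ↔
      a ≤ P.ord g + m * d := by
  constructor
  · intro h1
    obtain ⟨-, E, hE, h2, h3⟩ := h
    have h4 := (h1 E hE).resolve_left (mul_ne_zero hg (pow_ne_zero _ h2))
    rw [P.ord_mul hg (pow_ne_zero _ h2), P.ord_pow, h3] at h4
    exact h4
  · intro h1 E hE
    have h2 := (h.1 E hE).pow m
    have h3 : Ge P (P.ord g) g := Or.inr le_rfl
    exact (h3.mul h2).mono h1

/-- **The divisor of a tensor field.** There are finitely many prime divisors along which the order is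
not zero, and the order is bounded by that of a function, up to a fixed divisor. -/
theorem exists_tdiv (hy : NormalModel y) (hn : Algebra.trdeg ℂ K = n) :
    ∃ C : Place ℂ K → ℤ, (∀ P, 0 ≤ C P) ∧ {P | IsPrimeDivisor y P ∧ C P ≠ 0}.Finite ∧
      ∀ {r : ℕ} {σ : Tensor K r}, σ ≠ 0 → ∃ d : Place ℂ K → ℤ,
        {P | IsPrimeDivisor y P ∧ d P ≠ 0}.Finite ∧ (∀ P, IsPrimeDivisor y P → TOrd P σ (d P)) ∧
        ∃ f : K, f ≠ 0 ∧ ∀ P, IsPrimeDivisor y P → d P ≤ P.ord f + r * C P := by
  classical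
  have hess := hy.ess
  obtain ⟨x, E, hx, hE⟩ := exists_crd hn (k := ℂ) (K := K)
  have hden : ∀ j, ∃ h : K, h ≠ 0 ∧ (y j ≠ 0 → h ∈ chart y j ∧
      ∀ i, ∀ f ∈ chart y j, h * E i f ∈ chart y j) := by
    intro j
    by_cases hj : y j = 0
    · exact ⟨1, one_ne_zero, fun h => absurd hj h⟩
    · obtain ⟨h, h1, h2, h3⟩ := exists_den_frame hy hj E
      exact ⟨h, h2, fun _ => ⟨h1, h3⟩⟩
  choose h hh0 hh using hden
  have hx0 : ∀ i, x i ≠ 0 := fun i => hx.1.ne_zero i
  have hf1 : (⋃ j, {P | IsPrimeDivisor y P ∧ P.ord (h j) ≠ 0}).Finite :=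
    Set.finite_iUnion fun j => finite_ord hy (hh0 j)
  have hf2 : (⋃ i, {P | IsPrimeDivisor y P ∧ P.ord (x i) ≠ 0}).Finite :=
    Set.finite_iUnion fun i => finite_ord hy (hx0 i)
  refine ⟨fun P => ∑ j, |P.ord (h j)|, fun P => Finset.sum_nonneg fun _ _ => abs_nonneg _, ?_, ?_⟩
  · refine hf1.subset ?_
    rintro P ⟨hP, h0⟩
    by_contra hcon
    simp only [Set.mem_iUnion, Set.mem_ofPred_eq, not_exists, not_and, not_not] at hcon
    apply h0
    refine Finset.sum_eq_zero fun j _ => ?_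
    rw [hcon j hP, abs_zero]
  intro r σ hσ
  have hloc : ∀ P : Place ℂ K, ∃ d : ℤ, IsPrimeDivisor y P → TOrd P σ d := by
    intro P
    by_cases hP : IsPrimeDivisor y P
    · obtain ⟨z, G, i0, hl⟩ := exists_loc hn (hP.divisorial hy hn)
      obtain ⟨I, -, hI⟩ := tord_frame hl.bas hl.dual hl.reg hl.pres hσ
      exact ⟨_, fun _ => hI⟩
    · exact ⟨0, fun h => absurd h hP⟩
  choose d hd using hloc
  obtain ⟨I, hI⟩ := exists_val hx hE hσ
  refine ⟨d, ?_, hd, σ (fun k => E (I k)), hI, fun P hP => ?_⟩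
  · have hf3 : (⋃ J : Fin r → Fin n, {P | IsPrimeDivisor y P ∧ P.ord (σ fun k => E (J k)) ≠ 0}).Finite := by
      refine Set.finite_iUnion fun J => ?_
      by_cases hJ : σ (fun k => E (J k)) = 0
      · refine Set.finite_empty.subset ?_
        rintro P ⟨-, h0⟩
        rw [hJ, P.ord_zero] at h0
        exact h0 rfl
      · exact finite_ord hy hJ
    refine ((hf1.union hf2).union hf3).subset ?_
    rintro P ⟨hP, hdP⟩
    by_contra hcon
    simp only [Set.mem_union, Set.mem_iUnion, Set.mem_ofPred_eq, not_or, not_exists, not_and,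
      not_not] at hcon
    obtain ⟨⟨hc1, hc2⟩, hc3⟩ := hcon
    obtain ⟨j, hj⟩ := exists_centred hy P
    obtain ⟨hhc, hhE⟩ := hh j hj.1
    have hDr : ∀ i, DerReg P (h j • E i) := fun i => derReg_of_chart hP hj fun f hf => hhE i f hf
    have hEr : ∀ i, DerReg P (E i) := by
      intro i f hf
      have h1 := hDr i f hf
      have h2 : Ge P 0 (h j * E i f) := h1
      have h3 := h2.of_mul (hh0 j)
      rw [hc1 j hP, sub_zero] at h3
      exact h3
    obtain ⟨J, hJ0, hJ⟩ := tord_frame hx hE (fun i => Or.inr (hc2 i hP).ge) hEr hσ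
    apply hdP
    rw [(hd P hP).unique hJ]
    exact hc3 J hP
  · obtain ⟨j, hj⟩ := exists_centred hy P
    obtain ⟨hhc, hhE⟩ := hh j hj.1
    have hDr : ∀ i, DerReg P (h j • E i) := fun i => derReg_of_chart hP hj fun f hf => hhE i f hf
    have h1 := (hd P hP).1 (fun k => h j • E (I k)) fun k => hDr _
    rw [MultilinearMap.map_smul_univ, smul_eq_mul, Finset.prod_const, Finset.card_univ,
      Fintype.card_fin] at h1
    have h2 := (h1.of_mul (pow_ne_zero _ (hh0 j))).resolve_left hI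
    rw [P.ord_pow] at h2
    have h3 : P.ord (h j) ≤ ∑ j, |P.ord (h j)| := (le_abs_self _).trans
      (Finset.single_le_sum (f := fun j => |P.ord (h j)|) (fun _ _ => abs_nonneg _)
        (Finset.mem_univ j))
    have h4 := mul_le_mul_of_nonneg_left h3 (Int.natCast_nonneg r)
    linarith

end

end Pool.Agent.H59D
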