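import Pool.Agent.H59D.Ord

/-!
Sections of rank one sheaves of tensor fields on smooth varieties: they extend to all divisors over the
variety, and they can be pulled back.
-/

set_option autoImplicit false
set_option linter.overlappingInstances false
set_option linter.unusedSectionVars false

open FF Module MvPolynomial Pool.Agent.W602.GT Pool.Agent.W603.LV Pool.Agent.W619.PQ
open Pool.Agent.Y172 Pool.Agent.Y191 Pool.Agent.R887
open Pool.Agent.N110 Pool.Agent.N110.PA Pool.Agent.N110.NV Pool.Agent.N492.PA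
open Pool.Agent.N110.CC

namespace Pool.Agent.H59D

section

variable {K : Type} [Field K] [Algebra ℂ K] {N n r : ℕ} {y : Fin (N + 1) → K}

/-- vector fields which preserve the local ring are regular at the prime divisors through the centre -/
theorem derReg_through (hy : NormalModel y) {Q P : Place ℂ K} {D : Derivation ℂ K K}
    (hD : ∀ f ∈ localRing y Q, D f ∈ localRing y Q) (hP : IsPrimeDivisor y P)
    (ht : Through y P Q) : DerReg P D := by
  intro f hf
  obtain ⟨j, hj⟩ := exists_centred hy Q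
  have hjP := ht.centred hj
  obtain ⟨a, ha, b, hb, hb0, hbo, hab⟩ := (mem_localRing hjP).1 (hP f hf)
  have h1 : P.Reg (D a) := ht _ (hD a (chart_localRing hj ha))
  have h2 : P.Reg (D b) := ht _ (hD b (chart_localRing hj hb))
  have h3 : D f = (D a - f * D b) / b := by
    rw [eq_div_iff hb0, ← hab, Derivation.leibniz, smul_eq_mul, smul_eq_mul]
    ring
  rw [h3]
  have h4 : Ge P 0 (D a - f * D b) := by
    have h5 : Ge P 0 (D a) := h1
    have h6 : Ge P 0 (f * D b) := P.reg_mul hf h2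
    exact h5.sub h6
  have h5 := ge_div hb0 h4
  rw [hbo, sub_zero] at h5
  exact h5

/-- **Hartogs for tensor fields on smooth varieties.** -/
theorem smooth_sec (hy : NormalModel y) (hsm : SmoothModel y n) {Q : Place ℂ K}
    (hQ : Divisorial n Q) : ∃ (x : Fin n → K) (E : Fin n → Derivation ℂ K K),
      IsTranscendenceBasis ℂ x ∧ (∀ i j, E i (x j) = if i = j then 1 else 0) ∧
      (∀ i, Q.Reg (x i)) ∧ ∀ {r : ℕ} {σ : Tensor K r} {m : ℕ} {g : K},
        (∀ P, IsPrimeDivisor y P → Through y P Q → ∀ E : Fin r → Derivation ℂ K K,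
          (∀ k, DerReg P (E k)) → P.Reg (g * σ E ^ m)) →
        ∀ I : Fin r → Fin n, Q.Reg (g * σ (fun k => E (I k)) ^ m) := by
  obtain ⟨x, E, hx, hxr, hE, hpres⟩ := hsm Q hQ
  refine ⟨x, E, hx, hE, fun i => localRing_reg (hxr i), fun {r σ m g} h I => ?_⟩
  refine localRing_reg (mem_localRing_of_reg hy fun P hP ht => ?_)
  exact h P hP ht _ fun k => derReg_through hy (hpres (I k)) hP ht

/-- functions with high orders along an effective divisor -/
theorem exists_bound {A : Place ℂ K → ℚ} (hA : Effective y A) (j : Fin (N + 1)) :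
    ∃ s ∈ chart y j, s ≠ 0 ∧ ∀ P, IsPrimeDivisor y P → Centred y j P → A P ≤ (P.ord s : ℚ) := by
  classical
  obtain ⟨s, hs, hs0, hsP⟩ := exists_high (y := y) (j := j)
    (S := {P | IsPrimeDivisor y P ∧ Centred y j P ∧ A P ≠ 0})
    (hA.2.subset (by
      rintro P ⟨h1, -, h2⟩
      exact ⟨h1, h2⟩)) (fun P hP => hP.2.1) (fun P hP => hP.1) (fun P => ⌈A P⌉₊)
  refine ⟨s, hs, hs0, fun P hP hPc => ?_⟩
  by_cases hAP : A P = 0
  · rw [hAP]
    have := (P.reg_iff hs0).1 (hPc.reg s hs)
    exact_mod_cast this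
  · have h6 := hsP P ⟨hP, hPc, hAP⟩
    have h7 : A P ≤ (⌈A P⌉₊ : ℚ) := Nat.le_ceil _
    exact h7.trans (by exact_mod_cast h6)

/-- twisted sections are regular after multiplication by a local equation -/
theorem twisted_local {A : Place ℂ K → ℚ} {j : Fin (N + 1)} {s : K} (hs0 : s ≠ 0)
    (hs : ∀ P, IsPrimeDivisor y P → Centred y j P → A P ≤ (P.ord s : ℚ)) {σ : Tensor K r}
    {m b : ℕ} {g : K} (hg : IsTwistedTensor y σ m (b • A) g) {Q : Place ℂ K}
    (hj : Centred y j Q) {P : Place ℂ K} (hP : IsPrimeDivisor y P) (ht : Through y P Q)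
    {E : Fin r → Derivation ℂ K K} (hE : ∀ k, DerReg P (E k)) :
    P.Reg (g * s ^ b * σ E ^ m) := by
  have e1 : g * s ^ b * σ E ^ m = g * σ E ^ m * s ^ b := by ring
  rw [e1]
  rcases hg P hP E hE with h | h
  · rw [h, zero_mul]
    exact P.reg_zero
  by_cases h0 : g * σ E ^ m = 0
  · rw [h0, zero_mul]
    exact P.reg_zero
  have h1 := hs P hP (ht.centred hj)
  refine (P.reg_iff (mul_ne_zero h0 (pow_ne_zero _ hs0))).2 ?_
  rw [P.ord_mul h0 (pow_ne_zero _ hs0), P.ord_pow]
  have h2 : (b • A : Place ℂ K → ℚ) P = b * A P := by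
    rw [Pi.smul_apply, nsmul_eq_mul]
  rw [h2] at h
  have h3 : (0 : ℚ) ≤ b := Nat.cast_nonneg b
  have h4 := mul_le_mul_of_nonneg_left h1 h3
  have h5 : (0 : ℚ) ≤ ((P.ord (g * σ E ^ m) + b * P.ord s : ℤ) : ℚ) := by
    push_cast
    linarith
  exact_mod_cast h5

end

section

variable {K : Type} [Field K] [Algebra ℂ K] {N n r : ℕ} {y : Fin (N + 1) → K}
  {L : Type} [Field L] [Algebra ℂ L] [Algebra K L] [IsScalarTower ℂ K L] [FiniteDimensional K L]

/-- **Pull backs of sections on smooth varieties.** -/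
theorem smooth_up (hy : NormalModel y) (hn : Algebra.trdeg ℂ K = n) (hsm : SmoothModel y n)
    {x : Fin n → K} {E : Fin n → Derivation ℂ K K} (hx : IsTranscendenceBasis ℂ x)
    (hE : ∀ i j, E i (x j) = if i = j then 1 else 0) {σ : Tensor K r} {m : ℕ} (hm : 1 ≤ m)
    {g : K} {Q : Place ℂ L} (hQ : Divisorial n Q)
    (h : ∀ P, IsPrimeDivisor y P → Through y P (bel K Q) → ∀ E : Fin r → Derivation ℂ K K,
      (∀ k, DerReg P (E k)) → P.Reg (g * σ E ^ m))
    {D : Fin r → Derivation ℂ L L} (hD : ∀ k, DerReg Q (D k)) :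
    Q.Reg (algebraMap K L g * tpull L x E σ D ^ m) := by
  have hess := hy.ess
  have hov := over_bel K Q
  have hPd : Divisorial n (bel K Q) := divisorial_down hov hQ
  obtain ⟨x', E', hx', hE', hreg, hsec⟩ := smooth_sec hy hsm hPd
  rw [tpull_change hn hx hE hx' hE' σ D]
  refine tpull_reg hov (l := fun _ => 1) (fun i => one_ne_zero) (fun k i => ?_) hm fun I => ?_
  · rw [map_one, div_one]
    exact hD k _ (hov.reg.2 (hreg i))
  · simp only [one_smul]
    exact hsec h I

end

section

variable {K : Type} [Field K] [Algebra ℂ K] {N n r : ℕ} {y : Fin (N + 1) → K}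

/-- sections on a smooth variety are regular at all divisors over the variety -/
theorem smooth_reg (hy : NormalModel y) (hsm : SmoothModel y n) {σ : Tensor K r} {m : ℕ}
    (hm : 1 ≤ m) {g : K} (h : ∀ P, IsPrimeDivisor y P → ∀ E : Fin r → Derivation ℂ K K,
      (∀ k, DerReg P (E k)) → P.Reg (g * σ E ^ m)) : IsTensorSection n ∅ σ m g := by
  have key : ∀ Q : Place ℂ K, Divisorial n Q → ∀ D : Fin r → Derivation ℂ K K,
      (∀ k, DerReg Q (D k)) → Q.Reg (g * σ D ^ m) := by
    intro Q hQ D hD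
    obtain ⟨x, E, hx, hE, hreg, hsec⟩ := smooth_sec hy hsm hQ
    have h1 := hsec (σ := σ) (m := m) (g := g) fun P hP _ => h P hP
    by_cases hg : g = 0
    · rw [hg, zero_mul]
      exact Q.reg_zero
    obtain ⟨a, ha⟩ : ∃ a, a = Q.ord g := ⟨_, rfl⟩
    have hm0 : (0 : ℤ) < m := by exact_mod_cast hm
    have h2 : Ge Q (-(a / m)) (σ D) := by
      refine ge_frame hx hE hreg (fun I => ?_) hD
      by_cases h0 : σ (fun k => E (I k)) = 0
      · exact Or.inl h0
      right
      have h3 := (Q.reg_iff (mul_ne_zero hg (pow_ne_zero _ h0))).1 (h1 I)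
      rw [Q.ord_mul hg (pow_ne_zero _ h0), Q.ord_pow, ← ha] at h3
      have h4 : -(Q.ord (σ fun k => E (I k))) ≤ a / m := by
        rw [Int.le_ediv_iff_mul_le hm0]
        nlinarith
      omega
    by_cases h0 : σ D = 0
    · rw [h0, zero_pow (by omega), mul_zero]
      exact Q.reg_zero
    have h3 := h2.resolve_left h0
    refine (Q.reg_iff (mul_ne_zero hg (pow_ne_zero _ h0))).2 ?_
    rw [Q.ord_mul hg (pow_ne_zero _ h0), Q.ord_pow, ← ha]
    have h4 : (a / m) * m ≤ a := Int.ediv_mul_le a hm0.ne'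
    nlinarith
  exact ⟨fun Q hQ D hD => key Q hQ D fun k => derLog_reg' (hD k), fun Q hQ _ D hD => key Q hQ D hD⟩

end

end Pool.Agent.H59D
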